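import Pool.Agent.Lib.MP_72e2e6_nt.Sm.F.Spec

/-!
# MP_72e2e6_nt, `Sm/F`: the auxiliary function of Stepanov
-/

namespace Pool.Agent.MP72S.SF

open Polynomial Finset

/-- a basis of `S` which consists of elements of `M` -/
private theorem aux_basis {k B : Type} [Field k] [CommRing B] [Algebra k B] (S : Submodule k B)
    (hfd : Module.Finite k S) (M : Set B)
    (hM : S = Submodule.span k {x | x ∈ M ∧ x ∈ S}) :
    ∃ (J : Type) (_ : Fintype J) (b : J → B), (∀ j, b j ∈ M ∧ b j ∈ S) ∧
      LinearIndependent k b ∧ Fintype.card J = Module.finrank k S := by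
  classical
  obtain ⟨T', hT'⟩ : ∃ T' : Set S, T' = {x : S | (x : B) ∈ M} := ⟨_, rfl⟩
  have himg : (S.subtype '' T') = {x | x ∈ M ∧ x ∈ S} := by
    rw [hT']
    ext x
    constructor
    · rintro ⟨y, hy, rfl⟩
      exact ⟨hy, y.2⟩
    · rintro ⟨h1, h2⟩
      exact ⟨⟨x, h2⟩, h1, rfl⟩
  have htop : Submodule.span k T' = ⊤ := by
    apply Submodule.map_injective_of_injective S.injective_subtype
    rw [Submodule.map_span, himg, ← hM, Submodule.map_top, Submodule.range_subtype]
  obtain ⟨b, hbT, hbs, hbi⟩ := exists_linearIndependent k T'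
  have hfin : b.Finite := hbi.setFinite
  have hft : Fintype b := hfin.fintype
  refine ⟨b, hft, fun x => ((x : S) : B), ?_, ?_, ?_⟩
  · rintro ⟨x, hx⟩
    have h1 := hbT hx
    rw [hT'] at h1
    exact ⟨h1, x.2⟩
  · exact hbi.map' S.subtype (by rw [Submodule.ker_subtype])
  · have h1 := finrank_span_set_eq_card hbi
    rw [hbs, htop, finrank_top] at h1
    rw [h1, Set.toFinset_card]

private theorem aux_pow {k B : Type} [Field k] [CommRing B] [Algebra k B]
    {S : ℕ → Submodule k B} {g : ℕ} {c : ℤ} {a₀ : ℕ} (hS : Flt k B S g c a₀) (a : ℕ) (x : B)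
    (hx : x ∈ S a) (n : ℕ) : x ^ n ∈ S (n * a) := by
  induction n with
  | zero =>
    rw [pow_zero, zero_mul]
    exact hS.one
  | succ n ih =>
    rw [pow_succ, Nat.succ_mul]
    exact hS.mul _ _ _ _ ih hx

theorem tAux (h_Ind : S_Ind) : S_Aux := by
  classical
  intro p _ k B _ _ _ _ _ _ S g c a₀ hS M hM h hh a l μ hlt
  have hp : p.Prime := Fact.out
  have hfa := hS.fd a
  have hfl := hS.fd l
  have hfal := hS.fd (p ^ μ * a + l)
  have hBp : CharP B p := charP_of_injective_algebraMap (algebraMap k B).injective p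
  obtain ⟨I, hI, e, he⟩ : ∃ (I : Type) (_ : Fintype I) (e : Module.Basis I k (S a)),
      Fintype.card I = Module.finrank k (S a) :=
    ⟨Fin (Module.finrank k (S a)), inferInstance, Module.finBasis k (S a), Fintype.card_fin _⟩
  obtain ⟨J, hJ, b, hb, hbi, hbc⟩ := aux_basis (S l) hfl M (hM l)
  have hei : LinearIndependent k (fun i => h ((e i : S a) : B)) := by
    refine e.linearIndependent.map' (h.toLinearMap.comp (S a).subtype) ?_
    rw [LinearMap.ker_eq_bot]
    exact hh.comp (S a).injective_subtype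
  obtain ⟨N, hN⟩ := h_Ind p k I _ hei
  refine ⟨N, fun ν hν => ?_⟩
  have hNν := hN ν hν
  -- the relation
  have hmem : ∀ x : I × J, ((e x.1 : S a) : B) ^ p ^ μ * b x.2 ∈ S (p ^ μ * a + l) :=
    fun x => hS.mul _ _ _ _ (aux_pow hS a _ (e x.1).2 _) (hb x.2).2
  have hnli : ¬ LinearIndependent k (fun x : I × J =>
      (⟨((e x.1 : S a) : B) ^ p ^ μ * b x.2, hmem x⟩ : S (p ^ μ * a + l))) := by
    intro hli
    have h1 := hli.fintype_card_le_finrank
    rw [Fintype.card_prod, he, hbc] at h1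
    omega
  rw [Fintype.not_linearIndependent_iff] at hnli
  obtain ⟨d, hd, ⟨i₀, j₀⟩, hd0⟩ := hnli
  have hd' : ∑ x : I × J, d x • (((e x.1 : S a) : B) ^ p ^ μ * b x.2) = 0 := by
    have h1 := congrArg (fun y : S (p ^ μ * a + l) => (y : B)) hd
    simp only [Submodule.coe_sum, Submodule.coe_smul, Submodule.coe_zero] at h1
    exact h1
  have hcex : ∀ x : I × J, ∃ y : k, y ^ p ^ μ = d x :=
    fun x => IsAlgClosed.exists_pow_nat_eq _ (pow_pos hp.pos μ)
  choose cc hcc using hcex
  have hcex' : ∀ x : I × J, ∃ y : k, y ^ p ^ ν = cc x :=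
    fun x => IsAlgClosed.exists_pow_nat_eq _ (pow_pos hp.pos ν)
  choose c' hc' using hcex'
  refine ⟨∑ x : I × J, cc x • (((e x.1 : S a) : B) * b x.2 ^ p ^ ν), ?_, ?_, ?_⟩
  · refine Submodule.sum_mem _ fun x _ => Submodule.smul_mem _ _ ?_
    refine hS.mul _ _ _ _ (e x.1).2 ?_
    have h1 := aux_pow hS l _ (hb x.2).2 (p ^ ν)
    rwa [mul_comm (p ^ ν) l] at h1
  · intro hf
    have hz := hNν (fun i => h (∑ j, c' (i, j) • b j)) (by
      have h1 : ∀ i, h (∑ j, c' (i, j) • b j) ^ p ^ ν * h ((e i : S a) : B) =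
          h (∑ j, cc (i, j) • (((e i : S a) : B) * b j ^ p ^ ν)) := by
        intro i
        rw [← map_pow, ← map_mul]
        congr 1
        rw [sum_pow_char_pow, Finset.sum_mul]
        refine Finset.sum_congr rfl fun j _ => ?_
        rw [_root_.smul_pow, hc', smul_mul_assoc, mul_comm (b j ^ p ^ ν)]
      rw [Finset.sum_congr rfl (fun i _ => h1 i), ← map_sum]
      rw [Fintype.sum_prod_type] at hf
      rw [hf, map_zero])
    have h2 := congrFun hz i₀
    have h3 : ∑ j, c' (i₀, j) • b j = 0 := by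
      apply hh
      rw [map_zero]
      exact h2
    have h4 := Fintype.linearIndependent_iff.1 hbi (fun j => c' (i₀, j)) h3 j₀
    apply hd0
    rw [← hcc, ← hc', h4, zero_pow (pow_pos hp.pos ν).ne', zero_pow (pow_pos hp.pos μ).ne']
  · intro ρ hρ
    have hpm : (ρ (∑ x : I × J, cc x • (((e x.1 : S a) : B) * b x.2 ^ p ^ ν))) ^ p ^ μ = 0 := by
      have h1 : ρ (∑ x : I × J, d x • (((e x.1 : S a) : B) ^ p ^ μ * b x.2)) = 0 := by
        rw [hd', map_zero]
      rw [← h1, map_sum, map_sum, sum_pow_char_pow]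
      refine Finset.sum_congr rfl fun x _ => ?_
      rw [map_smul, map_smul, _root_.smul_pow, hcc, map_mul, map_mul, mul_pow, map_pow, map_pow]
      congr 2
      rw [← pow_mul, ← pow_add, add_comm ν μ]
      exact hρ _ (hb x.2).1
    exact pow_eq_zero_iff (pow_pos hp.pos μ).ne' |>.1 hpm

end Pool.Agent.MP72S.SF
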