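import Pool.Agent.Lib.MP_72e2e6_nt.Sm.F.Spec

/-!
# MP_72e2e6_nt, `Sm/F`, CrvA: monomials on a plane curve (helper82)
-/

set_option autoImplicit false

namespace Pool.Agent.MP72S.SF

open Polynomial Finset

private lemma crvA_smul {k : Type} [Field k] (m : k[X][X]) (r : k) (P : k[X]) :
    AdjoinRoot.of m (C r * P) = r • AdjoinRoot.of m P := by
  rw [map_mul, Algebra.smul_def]
  rfl

private lemma crvA_mul {k : Type} [Field k] (m : k[X][X]) (i j i' j' : ℕ) :
    mon m i j * mon m i' j' = mon m (i + i') (j + j') := by
  unfold mon
  rw [pow_add, pow_add, map_mul]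
  ring

private lemma crvA_root {k : Type} [Field k] (m : k[X][X]) (hm : m.Monic) :
    AdjoinRoot.root m ^ m.natDegree =
      -∑ s ∈ range m.natDegree, AdjoinRoot.of m (m.coeff s) * AdjoinRoot.root m ^ s := by
  have h := AdjoinRoot.eval₂_root m
  rw [eval₂_eq_sum_range, Finset.sum_range_succ, hm.coeff_natDegree, map_one, one_mul] at h
  exact eq_neg_of_add_eq_zero_right h

theorem tCrvA : S_CrvA := by
  intro k _ m d hm hg hd
  have key : ∀ j i a, i + d * j ≤ a → mon m i j ∈ SS m d a := by
    intro j
    induction j using Nat.strong_induction_on with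
    | _ j ih =>
      intro i a hij
      by_cases hj : j < m.natDegree
      · exact Submodule.subset_span ⟨i, j, hij, hj, rfl⟩
      · push Not at hj
        obtain ⟨t, rfl⟩ := Nat.exists_eq_add_of_le hj
        have h1 : mon m i (m.natDegree + t) = -∑ s ∈ range m.natDegree,
            ∑ u ∈ range (d + 1), (m.coeff s).coeff u • mon m (i + u) (s + t) := by
          unfold mon
          rw [pow_add, crvA_root m hm, neg_mul, mul_neg, Finset.sum_mul, Finset.mul_sum]
          congr 1
          refine Finset.sum_congr rfl fun s _ => ?_
          have h2 : AdjoinRoot.of m (X ^ i * m.coeff s) =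
              ∑ u ∈ range (d + 1), (m.coeff s).coeff u • AdjoinRoot.of m (X ^ (i + u)) := by
            conv_lhs => rw [as_sum_range' (m.coeff s) (d + 1) (Nat.lt_succ_of_le (hd s))]
            rw [Finset.mul_sum, map_sum]
            refine Finset.sum_congr rfl fun u _ => ?_
            rw [← crvA_smul, ← C_mul_X_pow_eq_monomial, pow_add]
            congr 1
            ring
          calc AdjoinRoot.of m (X ^ i) * (AdjoinRoot.of m (m.coeff s) * AdjoinRoot.root m ^ s *
                AdjoinRoot.root m ^ t)
              = AdjoinRoot.of m (X ^ i * m.coeff s) * AdjoinRoot.root m ^ (s + t) := by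
                rw [map_mul, pow_add]
                ring
            _ = _ := by
                rw [h2, Finset.sum_mul]
                exact Finset.sum_congr rfl fun u _ => smul_mul_assoc _ _ _
        rw [h1]
        refine Submodule.neg_mem _ (Submodule.sum_mem _ fun s hs => Submodule.sum_mem _ fun u hu =>
          Submodule.smul_mem _ _ ?_)
        rw [Finset.mem_range] at hs hu
        apply ih (s + t) (by omega)
        have h3 : s + t + 1 ≤ m.natDegree + t := by omega
        have h4 : d * (s + t + 1) ≤ d * (m.natDegree + t) := Nat.mul_le_mul_left d h3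
        rw [Nat.mul_succ] at h4
        omega
  refine ⟨fun i j a => key j i a, fun a b x y hx hy => ?_⟩
  unfold SS at hx hy
  induction hx using Submodule.span_induction with
  | mem x hx =>
    obtain ⟨i, j, hij, -, rfl⟩ := hx
    induction hy using Submodule.span_induction with
    | mem y hy =>
      obtain ⟨i', j', hij', -, rfl⟩ := hy
      rw [crvA_mul]
      apply key
      rw [Nat.mul_add]
      omega
    | zero =>
      rw [mul_zero]
      exact Submodule.zero_mem _
    | add y y' _ _ h h' =>
      rw [mul_add]
      exact Submodule.add_mem _ h h'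
    | smul r y _ h =>
      rw [mul_smul_comm]
      exact Submodule.smul_mem _ _ h
  | zero =>
    rw [zero_mul]
    exact Submodule.zero_mem _
  | add x x' _ _ h h' =>
    rw [add_mul]
    exact Submodule.add_mem _ h h'
  | smul r x _ h =>
    rw [smul_mul_assoc]
    exact Submodule.smul_mem _ _ h

end Pool.Agent.MP72S.SF
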