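import Pool.Agent.Lib.MP_72e2e6_nt.Sm.F.Spec

/-!
# MP_72e2e6_nt, `Sm/F`: the filtration of a plane curve
-/

namespace Pool.Agent.MP72S.SF

open Polynomial Finset

/-- the monomials `t ^ i y ^ j`, `j < g`, are independent -/
private theorem crvB_li {k : Type} [Field k] (m : k[X][X]) (hm : m.Monic) :
    LinearIndependent k (fun x : ℕ × Fin m.natDegree => mon m x.1 (x.2 : ℕ)) := by
  have h1 : LinearIndependent k (fun i : ℕ => (X ^ i : k[X])) := by
    have h2 := (Polynomial.basisMonomials k).linearIndependent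
    have h3 : (⇑(Polynomial.basisMonomials k)) = fun i : ℕ => (X ^ i : k[X]) := by
      rw [Polynomial.coe_basisMonomials]
      funext i
      exact monomial_one_right_eq_X_pow i
    rwa [h3] at h2
  have h2 : LinearIndependent k[X] (fun j : Fin m.natDegree => AdjoinRoot.root m ^ (j : ℕ)) := by
    have h3 := (AdjoinRoot.powerBasis' hm).basis.linearIndependent
    have h4 : (⇑(AdjoinRoot.powerBasis' hm).basis) =
        fun j : Fin (AdjoinRoot.powerBasis' hm).dim => AdjoinRoot.root m ^ (j : ℕ) := by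
      funext j
      rw [PowerBasis.basis_eq_pow]
      rfl
    rw [h4] at h3
    exact h3
  have h3 := linearIndependent_smul h1 h2
  have h4 : (fun x : ℕ × Fin m.natDegree => mon m x.1 (x.2 : ℕ)) =
      fun p : ℕ × Fin m.natDegree => (X ^ p.1 : k[X]) • AdjoinRoot.root m ^ (p.2 : ℕ) := by
    funext p
    rw [Algebra.smul_def, AdjoinRoot.algebraMap_eq]
    rfl
  rw [h4]
  exact h3

/-- the generators of `SS m d a` -/
private theorem crvB_range {k : Type} [Field k] (m : k[X][X]) (d a : ℕ)
    (ha : d * m.natDegree ≤ a) :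
    Set.range (fun x : (Σ j : Fin m.natDegree, Fin (a - d * (j : ℕ) + 1)) =>
      mon m (x.2 : ℕ) (x.1 : ℕ)) =
      {x | ∃ i j, i + d * j ≤ a ∧ j < m.natDegree ∧ x = mon m i j} := by
  ext y
  constructor
  · rintro ⟨⟨j, i⟩, rfl⟩
    have h1 := i.isLt
    have h2 : d * (j : ℕ) ≤ a := (Nat.mul_le_mul_left d j.isLt.le).trans ha
    exact ⟨i, j, by omega, j.isLt, rfl⟩
  · rintro ⟨i, j, h1, h2, rfl⟩
    exact ⟨⟨⟨j, h2⟩, ⟨i, by
      change i < a - d * j + 1
      omega⟩⟩, rfl⟩

private theorem crvB_dim {k : Type} [Field k] (m : k[X][X]) (hm : m.Monic) (d a : ℕ)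
    (ha : d * m.natDegree ≤ a) :
    (Module.finrank k (SS m d a) : ℤ) = m.natDegree * a +
      (m.natDegree - d * ∑ j : Fin m.natDegree, (j : ℤ)) := by
  have h1 : LinearIndependent k
      (fun x : (Σ j : Fin m.natDegree, Fin (a - d * (j : ℕ) + 1)) =>
        mon m (x.2 : ℕ) (x.1 : ℕ)) := by
    refine (crvB_li m hm).comp (fun x : (Σ j : Fin m.natDegree, Fin (a - d * (j : ℕ) + 1)) =>
      ((x.2 : ℕ), x.1)) ?_
    rintro ⟨j, i⟩ ⟨j', i'⟩ h
    obtain ⟨h2, h3⟩ := Prod.mk.inj h
    change j = j' at h3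
    subst h3
    have h4 : i = i' := Fin.ext h2
    subst h4
    rfl
  have h2 : Module.finrank k (SS m d a) =
      Fintype.card (Σ j : Fin m.natDegree, Fin (a - d * (j : ℕ) + 1)) := by
    unfold SS
    rw [← crvB_range m d a ha]
    exact finrank_span_eq_card h1
  rw [h2, Fintype.card_sigma]
  push_cast
  have h3 : ∀ j : Fin m.natDegree, ((Fintype.card (Fin (a - d * (j : ℕ) + 1)) : ℕ) : ℤ) =
      (a : ℤ) + 1 - d * (j : ℤ) := by
    intro j
    have h4 : d * (j : ℕ) ≤ a := (Nat.mul_le_mul_left d j.isLt.le).trans ha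
    rw [Fintype.card_fin]
    push_cast [Nat.cast_sub h4]
    ring
  rw [Finset.sum_congr rfl (fun j _ => h3 j), Finset.sum_sub_distrib, ← Finset.mul_sum,
    Finset.sum_const, Finset.card_univ, Fintype.card_fin, nsmul_eq_mul]
  ring

private theorem crvB_fd {k : Type} [Field k] (m : k[X][X]) (d a : ℕ) (hd : 1 ≤ d) :
    Module.Finite k (SS m d a) := by
  unfold SS
  refine Module.Finite.span_of_finite k ?_
  refine ((Finset.range (a + 1) ×ˢ Finset.range (a + 1)).finite_toSet.image
    (fun x : ℕ × ℕ => mon m x.1 x.2)).subset ?_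
  rintro y ⟨i, j, h1, h2, rfl⟩
  refine ⟨(i, j), ?_, rfl⟩
  have h3 : j ≤ d * j := Nat.le_mul_of_pos_left j hd
  rw [Finset.mem_coe, Finset.mem_product, Finset.mem_range, Finset.mem_range]
  constructor
  · change i < a + 1
    omega
  · change j < a + 1
    omega

theorem tCrvB (h_CrvA : S_CrvA) : S_CrvB := by
  classical
  intro k _ m hm hg
  obtain ⟨d, hd1, hd⟩ : ∃ d : ℕ, 1 ≤ d ∧ ∀ s, (m.coeff s).natDegree ≤ d := by
    refine ⟨(Finset.range (m.natDegree + 1)).sup (fun s => (m.coeff s).natDegree) + 1,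
      Nat.le_add_left _ _, fun s => ?_⟩
    by_cases hs : s < m.natDegree + 1
    · exact (Finset.le_sup (f := fun s => (m.coeff s).natDegree)
        (Finset.mem_range.2 hs)).trans (Nat.le_succ _)
    · rw [coeff_eq_zero_of_natDegree_lt (by omega), natDegree_zero]
      exact Nat.zero_le _
  obtain ⟨hA, hB⟩ := h_CrvA k m d hm hg hd
  have hmono : Monotone (SS m d) := by
    intro a b hab
    unfold SS
    apply Submodule.span_mono
    rintro x ⟨i, j, h1, h2, rfl⟩
    exact ⟨i, j, h1.trans hab, h2, rfl⟩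
  refine ⟨d, m.natDegree - d * ∑ j : Fin m.natDegree, (j : ℤ), d * m.natDegree,
    ⟨hg, hmono, ?_, hB, ?_, fun a => crvB_fd m d a hd1, fun a ha => crvB_dim m hm d a ha⟩, ?_⟩
  · have h1 : (1 : AdjoinRoot m) = mon m 0 0 := by
      unfold mon
      rw [pow_zero, pow_zero, map_one, mul_one]
    rw [h1]
    exact hA 0 0 0 (by simp)
  · -- every element is in some `SS m d a`
    have hadd : ∀ x y : AdjoinRoot m, (∃ a, x ∈ SS m d a) → (∃ a, y ∈ SS m d a) →
        ∃ a, x + y ∈ SS m d a := by
      rintro x y ⟨a, ha⟩ ⟨b, hb⟩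
      exact ⟨max a b, Submodule.add_mem _ (hmono (le_max_left a b) ha)
        (hmono (le_max_right a b) hb)⟩
    intro x
    obtain ⟨f, rfl⟩ := AdjoinRoot.mk_surjective x
    induction f using Polynomial.induction_on' with
    | add p q hp hq =>
      rw [map_add]
      exact hadd _ _ hp hq
    | monomial j c =>
      have h1 : AdjoinRoot.mk m (monomial j c) =
          AdjoinRoot.of m c * AdjoinRoot.root m ^ j := by
        rw [← C_mul_X_pow_eq_monomial, map_mul, map_pow, AdjoinRoot.mk_C, AdjoinRoot.mk_X]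
      rw [h1]
      induction c using Polynomial.induction_on' with
      | add p q hp hq =>
        rw [map_add, add_mul]
        refine hadd _ _ (hp ?_) (hq ?_)
        · rw [← C_mul_X_pow_eq_monomial, map_mul, map_pow, AdjoinRoot.mk_C, AdjoinRoot.mk_X]
        · rw [← C_mul_X_pow_eq_monomial, map_mul, map_pow, AdjoinRoot.mk_C, AdjoinRoot.mk_X]
      | monomial i c =>
        refine ⟨i + d * j, ?_⟩
        have h2 : AdjoinRoot.of m (monomial i c) * AdjoinRoot.root m ^ j = c • mon m i j := by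
          unfold mon
          rw [← smul_X_eq_monomial, ← smul_mul_assoc]
          congr 1
          rw [AdjoinRoot.smul_of]
        rw [h2]
        exact Submodule.smul_mem _ _ (hA i j _ le_rfl)
  · intro a
    apply le_antisymm
    · conv_lhs => unfold SS
      apply Submodule.span_mono
      rintro x ⟨i, j, h1, h2, rfl⟩
      refine ⟨⟨i, j, rfl⟩, ?_⟩
      exact Submodule.subset_span ⟨i, j, h1, h2, rfl⟩
    · rw [Submodule.span_le]
      intro x hx
      exact hx.2

end Pool.Agent.MP72S.SF
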