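import Pool.Agent.Lib.MP_72e2e6_nt.Sm.F.Spec

/-! # MP_72e2e6_nt, Sm/F, module Hns (helper51) -/

set_option autoImplicit false

namespace Pool.Agent.MP72S.SF

open Polynomial

/-- Hensel's lemma for a power series ring. -/
private theorem hensel_root {k : Type} [Field k] (q : (PowerSeries k)[X]) (hq : q.Monic) (a : k)
    (h0 : (q.map (PowerSeries.constantCoeff (R := k))).eval a = 0)
    (h1 : (derivative (q.map (PowerSeries.constantCoeff (R := k)))).eval a ≠ 0) :
    ∃ r : PowerSeries k, q.eval r = 0 := by
  have hmem : ∀ x : PowerSeries k, x ∈ (Ideal.span {PowerSeries.X} : Ideal (PowerSeries k)) ↔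
      PowerSeries.constantCoeff x = 0 := by
    intro x
    rw [Ideal.mem_span_singleton, PowerSeries.X_dvd_iff]
  have hH : HenselianRing (PowerSeries k) (Ideal.span {PowerSeries.X}) := inferInstance
  have hc : PowerSeries.constantCoeff (PowerSeries.C a) = a := PowerSeries.constantCoeff_C a
  have e0 : PowerSeries.constantCoeff (q.eval (PowerSeries.C a)) = 0 := by
    rw [← eval₂_at_apply, hc, ← eval_map]
    exact h0
  have e1 : PowerSeries.constantCoeff ((derivative q).eval (PowerSeries.C a)) ≠ 0 := by
    rw [← eval₂_at_apply, hc, ← eval_map, ← derivative_map]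
    exact h1
  obtain ⟨r, hr, hr'⟩ := hH.is_henselian q hq (PowerSeries.C a) ((hmem _).mpr e0) (by
    apply IsUnit.map
    exact PowerSeries.isUnit_iff_constantCoeff.mpr (isUnit_iff_ne_zero.mpr e1))
  exact ⟨r, hr⟩

/-- The substitution `X ↦ θ + X` is injective. -/
private theorem sub_inj {k : Type} [Field k] (θ : k) :
    Function.Injective (aeval (PowerSeries.C θ + PowerSeries.X : PowerSeries k) :
      k[X] →ₐ[k] PowerSeries k) := by
  have h1 : (aeval (PowerSeries.X : PowerSeries k) : k[X] →ₐ[k] PowerSeries k) =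
      Polynomial.coeToPowerSeries.algHom k := by
    apply algHom_ext
    rw [aeval_X]
    simp
  rw [injective_iff_map_eq_zero]
  intro f hf
  have h2 : aeval (PowerSeries.X : PowerSeries k) (f.comp (C θ + X)) = 0 := by
    rw [aeval_comp, map_add, aeval_X, aeval_C, PowerSeries.algebraMap_apply]
    exact hf
  rw [h1] at h2
  have h3 : ((f.comp (C θ + X) : k[X]) : PowerSeries k) = 0 := by
    have h4 := h2
    simp only [Polynomial.coeToPowerSeries.algHom_apply] at h4
    simpa using h4
  have h5 : f.comp (C θ + X) = 0 := Polynomial.coe_injective k (by rw [h3]; simp)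
  have h6 : (f.comp (C θ + X)).comp (X - C θ) = f := by
    rw [comp_assoc]
    simp
  rw [← h6, h5, zero_comp]

private theorem exists_bezout {k : Type} [Field k] (m : k[X][X])
    (hs : (m.map (algebraMap k[X] (RatFunc k))).Separable) :
    ∃ (U V : k[X][X]) (D : k[X]), D ≠ 0 ∧ U * m + V * derivative m = C D := by
  obtain ⟨a, b, hab⟩ := hs
  obtain ⟨b1, hb1, h1⟩ := IsLocalization.integerNormalization_spec (nonZeroDivisors k[X]) a
  obtain ⟨b2, hb2, h2⟩ := IsLocalization.integerNormalization_spec (nonZeroDivisors k[X]) b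
  refine ⟨C b2 * IsLocalization.integerNormalization (nonZeroDivisors k[X]) a,
    C b1 * IsLocalization.integerNormalization (nonZeroDivisors k[X]) b,
    b1 * b2, mul_ne_zero (nonZeroDivisors.ne_zero hb1)
      (nonZeroDivisors.ne_zero hb2), ?_⟩
  apply map_injective (algebraMap k[X] (RatFunc k)) (IsFractionRing.injective k[X] (RatFunc k))
  have e1 : (b1 • a : (RatFunc k)[X]) = C (algebraMap k[X] (RatFunc k) b1) * a := by
    ext i
    rw [coeff_smul, coeff_C_mul, Algebra.smul_def]
  have e2 : (b2 • b : (RatFunc k)[X]) = C (algebraMap k[X] (RatFunc k) b2) * b := by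
    ext i
    rw [coeff_smul, coeff_C_mul, Algebra.smul_def]
  rw [Polynomial.map_add, Polynomial.map_mul, Polynomial.map_mul, Polynomial.map_mul,
    Polynomial.map_mul, h1, h2, e1, e2, map_C, map_C, map_C, map_mul, C_mul,
    ← derivative_map]
  linear_combination (C (algebraMap k[X] (RatFunc k) b1) *
    C (algebraMap k[X] (RatFunc k) b2)) * hab

/-- **Hns**. `k[X][Y] / (m)` is a domain and embeds in the power series. -/
theorem tHns : S_Hns := by
  intro k _ _ m hm hirr hs
  have hirr' : Irreducible m :=
    (Polynomial.Monic.irreducible_iff_irreducible_map_fraction_map (K := RatFunc k) hm).mpr hirr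
  have hprime : Prime m := hirr'.prime
  have hdom : IsDomain (AdjoinRoot m) := AdjoinRoot.isDomain_of_prime hprime
  refine ⟨hdom, ?_⟩
  have hdeg : m.natDegree ≠ 0 := by
    intro h0
    have h1 : m = 1 := by
      rw [eq_C_of_natDegree_eq_zero h0]
      have h2 : m.coeff 0 = 1 := by
        have h3 := hm
        rw [Monic, leadingCoeff, h0] at h3
        exact h3
      rw [h2, C_1]
    exact hirr'.not_isUnit (by rw [h1]; exact isUnit_one)
  obtain ⟨U, V, D, hD, hUV⟩ := exists_bezout m hs
  have hinf : Infinite k := inferInstance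
  obtain ⟨θ, hθ⟩ : ∃ θ : k, D.eval θ ≠ 0 := by
    by_contra hcon
    push Not at hcon
    exact hD (Polynomial.funext (fun r => by rw [hcon r, eval_zero]))
  obtain ⟨η, hη⟩ := IsAlgClosed.exists_root (m.map (evalRingHom θ)) (by
    intro h1
    have h2 := hm.natDegree_map (evalRingHom θ)
    have h3 : (m.map (evalRingHom θ)).natDegree = 0 := natDegree_eq_of_degree_eq_some h1
    exact hdeg (by rw [← h2, h3]))
  have hη' : (derivative (m.map (evalRingHom θ))).eval η ≠ 0 := by
    intro h0
    have h1 := congrArg (fun P => (P.map (evalRingHom θ)).eval η) hUV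
    simp only [Polynomial.map_add, Polynomial.map_mul, eval_add, eval_mul, map_C, eval_C] at h1
    rw [IsRoot.def.mp hη, ← derivative_map, h0, mul_zero, mul_zero, add_zero] at h1
    exact hθ h1.symm
  set φ : k[X] →ₐ[k] PowerSeries k :=
    aeval (PowerSeries.C θ + PowerSeries.X : PowerSeries k) with hφ
  have hcomp : (PowerSeries.constantCoeff (R := k)).comp φ.toRingHom = evalRingHom θ := by
    apply ringHom_ext
    · intro a
      simp [hφ]
    · simp [hφ]
  obtain ⟨s, hs⟩ := hensel_root (m.map φ.toRingHom) (hm.map _) η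
    (by rw [Polynomial.map_map, hcomp]; exact hη) (by rw [Polynomial.map_map, hcomp]; exact hη')
  have hs' : m.eval₂ φ s = 0 := by
    rw [eval_map] at hs
    exact hs
  refine ⟨AdjoinRoot.liftAlgHom m φ s hs', ?_⟩
  rw [injective_iff_map_eq_zero]
  have hfin : Module.Finite k[X] (AdjoinRoot m) := hm.finite_adjoinRoot
  have hint : Algebra.IsIntegral k[X] (AdjoinRoot m) := Algebra.IsIntegral.of_finite k[X] _
  have hker : RingHom.ker (AdjoinRoot.liftAlgHom m φ s hs') = ⊥ := by
    apply Ideal.eq_bot_of_comap_eq_bot (R := k[X])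
    rw [eq_bot_iff]
    intro f hf
    rw [Ideal.mem_comap, RingHom.mem_ker] at hf
    have h1 : AdjoinRoot.liftAlgHom m φ s hs' (algebraMap k[X] (AdjoinRoot m) f) = φ f := by
      rw [AdjoinRoot.algebraMap_eq]
      simp
    rw [h1] at hf
    exact (injective_iff_map_eq_zero _).mp (sub_inj θ) f hf
  intro z hz
  have h2 : z ∈ RingHom.ker (AdjoinRoot.liftAlgHom m φ s hs') := RingHom.mem_ker.mpr hz
  rw [hker] at h2
  exact h2

end Pool.Agent.MP72S.SF
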