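import Pool.Agent.Lib.MP_72e2e6_nt.Sm.F.Spec

/-!
# MP_72e2e6_nt, `Sm/F`, Ind: independence over the `p ^ ν`-th powers (helper82)
-/

set_option autoImplicit false

namespace Pool.Agent.MP72S.SF

open Finset

theorem tInd : S_Ind := by
  intro p _ k _ _ ι _ e he
  have hp : p.Prime := Fact.out
  have : CharP (PowerSeries k) p :=
    charP_of_injective_ringHom (f := PowerSeries.C (R := k)) PowerSeries.C_injective p
  obtain ⟨R, hR⟩ : ∃ R : ℕ → Submodule k (ι → k), ∀ N c, c ∈ R N ↔
      ∀ j < N, PowerSeries.coeff j (∑ i, c i • e i) = 0 := by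
    refine ⟨fun N => { carrier := {c | ∀ j < N, PowerSeries.coeff j (∑ i, c i • e i) = 0}
                       add_mem' := ?_
                       zero_mem' := ?_
                       smul_mem' := ?_ }, fun N c => Iff.rfl⟩
    · intro a b ha hb j hj
      have h1 : ∑ i, (a + b) i • e i = ∑ i, a i • e i + ∑ i, b i • e i := by
        rw [← Finset.sum_add_distrib]
        exact Finset.sum_congr rfl fun i _ => add_smul _ _ _
      rw [h1, map_add, ha j hj, hb j hj, add_zero]
    · intro j _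
      have h1 : ∑ i, (0 : ι → k) i • e i = 0 :=
        Finset.sum_eq_zero fun i _ => zero_smul _ _
      rw [h1, map_zero]
    · intro r a ha j hj
      have h1 : ∑ i, (r • a) i • e i = r • ∑ i, a i • e i := by
        rw [Finset.smul_sum]
        exact Finset.sum_congr rfl fun i _ => mul_smul _ _ _
      rw [h1, map_smul, ha j hj, smul_zero]
  have hanti : Antitone R := by
    intro a b hab c hc
    rw [hR] at hc ⊢
    exact fun j hj => hc j (lt_of_lt_of_le hj hab)
  obtain ⟨N, hN⟩ := IsArtinian.monotone_stabilizes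
    (⟨fun n => OrderDual.toDual (R n), fun a b hab => hanti hab⟩ : ℕ →o (Submodule k (ι → k))ᵒᵈ)
  have hN' : ∀ c ∈ R N, c = 0 := by
    intro c hc
    have h1 : ∀ n, c ∈ R n := by
      intro n
      rcases le_total N n with h | h
      · have h2 : R N = R n := hN n h
        rw [← h2]
        exact hc
      · exact hanti h hc
    have h3 : ∑ i, c i • e i = 0 := by
      ext j
      rw [map_zero]
      exact (hR _ _).1 (h1 (j + 1)) j (Nat.lt_succ_self j)
    have h4 := Fintype.linearIndependent_iff.1 he c h3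
    exact funext h4
  refine ⟨N, fun ν hν z hz => ?_⟩
  by_contra hne
  obtain ⟨i₀, hi₀⟩ : ∃ i, z i ≠ 0 := by
    by_contra hcon
    push Not at hcon
    exact hne (funext hcon)
  obtain ⟨n₀, hn₀⟩ : ∃ n, PowerSeries.coeff n (z i₀) ≠ 0 := by
    by_contra hcon
    push Not at hcon
    exact hi₀ (PowerSeries.ext fun n => by rw [hcon n, map_zero])
  have hex : ∃ w : ℕ, ¬ ∀ i, (PowerSeries.X : PowerSeries k) ^ (w + 1) ∣ z i := by
    refine ⟨n₀, fun h => hn₀ ?_⟩
    exact PowerSeries.X_pow_dvd_iff.1 (h i₀) n₀ (Nat.lt_succ_self _)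
  obtain ⟨w, hw1, hw2⟩ : ∃ w : ℕ, (¬ ∀ i, (PowerSeries.X : PowerSeries k) ^ (w + 1) ∣ z i) ∧
      ∀ i, (PowerSeries.X : PowerSeries k) ^ w ∣ z i := by
    classical
    obtain ⟨w, hw, hmin⟩ : ∃ w : ℕ, (¬ ∀ i, (PowerSeries.X : PowerSeries k) ^ (w + 1) ∣ z i) ∧
        ∀ m < w, ¬ ¬ ∀ i, (PowerSeries.X : PowerSeries k) ^ (m + 1) ∣ z i :=
      ⟨Nat.find hex, Nat.find_spec hex, fun m hm => Nat.find_min hex hm⟩
    refine ⟨w, hw, ?_⟩
    intro i
    rcases w with _ | w
    · rw [pow_zero]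
      exact one_dvd _
    · exact not_not.1 (hmin w (Nat.lt_succ_self w)) i
  choose u hu using hw2
  push Not at hw1
  obtain ⟨i₁, hi₁⟩ := hw1
  have hc : PowerSeries.constantCoeff (u i₁) ≠ 0 := by
    intro h0
    apply hi₁
    rw [hu i₁, pow_succ]
    exact mul_dvd_mul_left _ (PowerSeries.X_dvd_iff.2 h0)
  have hX : (PowerSeries.X : PowerSeries k) ^ (w * p ^ ν) ≠ 0 :=
    pow_ne_zero _ PowerSeries.X_ne_zero
  have h1 : ∑ i, u i ^ p ^ ν * e i = 0 := by
    have h2 : (PowerSeries.X : PowerSeries k) ^ (w * p ^ ν) * ∑ i, u i ^ p ^ ν * e i = 0 := by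
      rw [Finset.mul_sum, ← hz]
      refine Finset.sum_congr rfl fun i _ => ?_
      conv_rhs => rw [hu i]
      rw [mul_pow, ← pow_mul, mul_assoc]
    exact (mul_eq_zero.1 h2).resolve_left hX
  have h3 : ∀ i, ∃ v : PowerSeries k, u i ^ p ^ ν =
      PowerSeries.C (PowerSeries.constantCoeff (u i) ^ p ^ ν) + PowerSeries.X ^ p ^ ν * v := by
    intro i
    obtain ⟨v, hv⟩ := PowerSeries.X_dvd_iff.2
      (show PowerSeries.constantCoeff (u i - PowerSeries.C (PowerSeries.constantCoeff (u i))) = 0 by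
        rw [map_sub, PowerSeries.constantCoeff_C, sub_self])
    refine ⟨v ^ p ^ ν, ?_⟩
    have h4 : u i = PowerSeries.C (PowerSeries.constantCoeff (u i)) + PowerSeries.X * v := by
      rw [← hv]
      ring
    conv_lhs => rw [h4]
    rw [add_pow_char_pow, mul_pow, map_pow]
  choose v hv using h3
  have h5 : (fun i => PowerSeries.constantCoeff (u i) ^ p ^ ν) ∈ R N := by
    rw [hR]
    intro j hj
    have h6 : ∑ i, (PowerSeries.constantCoeff (u i) ^ p ^ ν) • e i =
        -(PowerSeries.X ^ p ^ ν * ∑ i, v i * e i) := by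
      rw [eq_neg_iff_add_eq_zero, ← h1, Finset.mul_sum, ← Finset.sum_add_distrib]
      refine Finset.sum_congr rfl fun i _ => ?_
      rw [hv i, PowerSeries.smul_eq_C_mul]
      ring
    rw [h6, map_neg, PowerSeries.X_pow_dvd_iff.1 (dvd_mul_right _ _) j (lt_of_lt_of_le hj hν),
      neg_zero]
  have h7 := congrFun (hN' _ h5) i₁
  exact hc (pow_eq_zero_iff (pow_ne_zero _ hp.ne_zero) |>.1 h7)

end Pool.Agent.MP72S.SF
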