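import Pool.Agent.Lib.MP_72e2e6_nt.Sm.F.Spec

namespace Pool.Agent.MP72S.SF

open Polynomial Finset

/-- fixed points of the powers of the Frobenius -/
private noncomputable def irB (F k : Type) [Field F] [Field k] (n : ℕ) : Finset k :=
  open Classical in (X ^ Nat.card F ^ n - X : k[X]).roots.toFinset

private theorem irB_mem (F k : Type) [Field F] [Finite F] [Field k] (n : ℕ) (hn : 1 ≤ n)
    (x : k) : x ∈ irB F k n ↔ x ^ Nat.card F ^ n = x := by
  classical
  have h1 : 1 < Nat.card F := Finite.one_lt_card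
  have h0 : (X ^ Nat.card F ^ n - X : k[X]) ≠ 0 :=
    FiniteField.X_pow_card_pow_sub_X_ne_zero k (by omega) h1
  rw [irB, Multiset.mem_toFinset, mem_roots h0, IsRoot.def, eval_sub, eval_pow, eval_X, sub_eq_zero]

private theorem irB_card (F k : Type) [Field F] [Finite F] [Field k] [Algebra F k] [IsAlgClosed k]
    (n : ℕ) (hn : 1 ≤ n) : #(irB F k n) = Nat.card F ^ n := by
  classical
  obtain ⟨p, hp⟩ := CharP.exists F
  haveI : CharP k p := charP_of_injective_algebraMap (algebraMap F k).injective p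
  have h1 : 1 < Nat.card F := Finite.one_lt_card
  have hpq : p ∣ Nat.card F ^ n := by
    refine Dvd.dvd.pow ?_ (by omega)
    rw [← CharP.cast_eq_zero_iff F p]
    letI := Fintype.ofFinite F
    rw [Nat.card_eq_fintype_card]
    exact Nat.cast_card_eq_zero F
  have hsep : (X ^ Nat.card F ^ n - X : k[X]).Separable := galois_poly_separable p _ hpq
  rw [irB, Multiset.toFinset_card_of_nodup (nodup_roots hsep),
    ← (IsAlgClosed.splits (X ^ Nat.card F ^ n - X : k[X])).natDegree_eq_card_roots,
    FiniteField.X_pow_card_pow_sub_X_natDegree_eq k (by omega) h1]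

private theorem ir_root (F k : Type) [Field F] [Finite F] [Field k] [Algebra F k] (P : F[X])
    (hP : Irreducible P) (x : k) (hx : aeval x P = 0) :
    x ^ Nat.card F ^ P.natDegree = x := by
  obtain ⟨g, hg⟩ := (hP.natDegree_dvd_iff_dvd_X_pow_card_pow_sub_X (n := P.natDegree)).1 dvd_rfl
  have h1 := congrArg (aeval x) hg
  rw [map_mul, hx, zero_mul, map_sub, map_pow, aeval_X, sub_eq_zero] at h1
  exact h1

private theorem ir_inj (F k : Type) [Field F] [Finite F] [Field k] [Algebra F k] (i : ℕ) (x y : k)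
    (h : x ^ Nat.card F ^ i = y ^ Nat.card F ^ i) : x = y := by
  obtain ⟨p, hp⟩ := CharP.exists F
  haveI : CharP k p := charP_of_injective_algebraMap (algebraMap F k).injective p
  haveI : Fact p.Prime := ⟨CharP.char_is_prime F p⟩
  letI := Fintype.ofFinite F
  obtain ⟨r, -, hr⟩ := FiniteField.card F p
  rw [Nat.card_eq_fintype_card, hr, ← pow_mul] at h
  have h2 := iterateFrobenius_inj k p (r * i)
  apply h2
  rw [iterateFrobenius_def, iterateFrobenius_def]
  exact h

private theorem ir_iter (q : ℕ) (k : Type) [Field k] (x : k) (d : ℕ) (h : x ^ q ^ d = x) (m : ℕ) :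
    x ^ q ^ (d * m) = x := by
  induction m with
  | zero => simp
  | succ m ih => rw [Nat.mul_succ, pow_add, pow_mul, ih, h]

private theorem ir_fin (F : Type) [Field F] [Finite F] (n : ℕ) : (Irs F n).Finite := by
  have h1 : ({f : F[X] | f.natDegree = n} : Set F[X]).Finite := by
    have h2 : (Polynomial.degreeLT F (n + 1) : Set F[X]).Finite := by
      haveI : Finite (Polynomial.degreeLT F (n + 1)) :=
        Finite.of_equiv _ (Polynomial.degreeLTEquiv F (n + 1)).symm.toEquiv
      exact Set.toFinite _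
    refine h2.subset ?_
    intro f hf
    have hf' : f.natDegree = n := hf
    rw [SetLike.mem_coe, Polynomial.mem_degreeLT]
    refine lt_of_le_of_lt Polynomial.degree_le_natDegree ?_
    rw [hf']
    exact_mod_cast Nat.lt_succ_self n
  have h3 : ({P : {P : F[X] // P.Monic ∧ Irreducible P} | P.1.natDegree = n}).Finite :=
    Set.Finite.preimage (Subtype.val_injective.injOn) h1
  refine (h3.image some).subset ?_
  rintro w ⟨P, rfl, hP⟩
  exact ⟨P, hP, rfl⟩

private theorem ir_num (q n T : ℕ) (hq : 2 ≤ q) (hn : 5 ≤ n)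
    (h : q ^ n ≤ T * n + q ^ (n / 2 + 1)) : 3 * q ^ n ≤ 4 * (n * T) := by
  have h1 : 4 * q ^ (n / 2 + 1) ≤ q ^ n := by
    calc 4 * q ^ (n / 2 + 1) ≤ q ^ 2 * q ^ (n / 2 + 1) := by
          refine Nat.mul_le_mul_right _ ?_
          nlinarith
      _ = q ^ (n / 2 + 3) := by rw [← pow_add]; congr 1; omega
      _ ≤ q ^ n := Nat.pow_le_pow_right (by omega) (by omega)
  have h2 : n * T = T * n := Nat.mul_comm _ _
  rw [h2]
  omega

theorem tIrc : D.S_Kk → D.S_Ro → S_Irc := by
  classical
  intro hKk hRo F _ _ A hA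
  refine ⟨ir_fin F, 5, fun n hn => ?_⟩
  haveI : IsAlgClosed (D.kF F) := (hKk F).1
  obtain ⟨hr, -, hU⟩ := hRo F A hA
  set q := Nat.card F with hq
  have hq2 : 2 ≤ q := Finite.one_lt_card
  set T : Finset (D.Pl F) := (ir_fin F n).toFinset with hT
  have hTc : (Irs F n).ncard = #T := by
    rw [hT, Set.ncard_eq_toFinset_card _ (ir_fin F n)]
  have hroot : ∀ P : {P : F[X] // P.Monic ∧ Irreducible P},
      D.rtP A (some P) ^ q ^ P.1.natDegree = D.rtP A (some P) := fun P =>
    ir_root F (D.kF F) P.1 P.2.2 _ (hr P).1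
  have hsub : irB F (D.kF F) n ⊆ (T ×ˢ range n).image (fun z => D.rtP A z.1 ^ q ^ z.2) ∪
      (Finset.Icc 1 (n / 2)).biUnion (irB F (D.kF F)) := by
    intro x hx
    rw [irB_mem F _ n (by omega)] at hx
    obtain ⟨⟨w, i⟩, ⟨hw, hi, hx2⟩, huq⟩ := hU x
    obtain ⟨P, rfl⟩ := Option.ne_none_iff_exists'.1 hw
    have hi' : i < P.1.natDegree := hi
    have hx3 : D.rtP A (some P) ^ q ^ i = x := hx2
    have hd := hroot P
    set θ := D.rtP A (some P) with hθ
    have hθn : θ ^ q ^ n = θ := by
      apply ir_inj F (D.kF F) i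
      rw [← hq, ← pow_mul, mul_comm, pow_mul, hx3]
      exact hx
    have hdp : 0 < P.1.natDegree := P.2.2.natDegree_pos
    have hmod : n % P.1.natDegree = 0 := by
      have h1 : θ ^ q ^ (n % P.1.natDegree) = θ := by
        have h2 := hθn
        conv_lhs at h2 => rw [← Nat.div_add_mod n P.1.natDegree]
        rw [pow_add, pow_mul, ir_iter q _ θ _ hd] at h2
        exact h2
      obtain ⟨z, -, hz⟩ := hU θ
      have a1 := hz (some P, n % P.1.natDegree) ⟨Option.some_ne_none _, Nat.mod_lt _ hdp, h1⟩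
      have a2 := hz (some P, 0) ⟨Option.some_ne_none _, hdp, by
        show θ ^ q ^ 0 = θ
        rw [pow_zero, pow_one]⟩
      have a3 := a1.trans a2.symm
      exact (Prod.mk.inj a3).2
    obtain ⟨m, hm⟩ := Nat.dvd_of_mod_eq_zero hmod
    rw [mem_union]
    by_cases hdn : P.1.natDegree = n
    · left
      rw [mem_image]
      refine ⟨(some P, i), ?_, hx3⟩
      rw [mem_product]
      refine ⟨?_, ?_⟩
      · rw [hT, Set.Finite.mem_toFinset]
        exact ⟨P, rfl, hdn⟩
      · rw [mem_range, ← hdn]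
        exact hi'
    · right
      rw [mem_biUnion]
      refine ⟨P.1.natDegree, ?_, ?_⟩
      · rw [Finset.mem_Icc]
        refine ⟨hdp, ?_⟩
        have hm2 : 2 ≤ m := by
          rcases m with _ | _ | m
          · omega
          · omega
          · omega
        rw [Nat.le_div_iff_mul_le (by norm_num)]
        rw [hm]
        exact Nat.mul_le_mul_left _ hm2
      · rw [irB_mem F _ _ hdp, ← hx3, ← hq, ← pow_mul, mul_comm, pow_mul, hd]
  have hcard : q ^ n ≤ #T * n + q ^ (n / 2 + 1) := by
    have h1 := Finset.card_le_card hsub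
    rw [irB_card F (D.kF F) n (by omega)] at h1
    refine h1.trans ((Finset.card_union_le _ _).trans ?_)
    refine Nat.add_le_add ?_ ?_
    · refine Finset.card_image_le.trans ?_
      rw [Finset.card_product, Finset.card_range]
    · refine Finset.card_biUnion_le.trans ?_
      have h2 : ∑ d ∈ Finset.Icc 1 (n / 2), #(irB F (D.kF F) d) = ∑ d ∈ Finset.Icc 1 (n / 2), q ^ d :=
        Finset.sum_congr rfl fun d hd => irB_card F (D.kF F) d (Finset.mem_Icc.1 hd).1
      rw [h2]
      refine (Nat.geomSum_lt hq2 fun d hd => ?_).le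
      have := (Finset.mem_Icc.1 hd).2
      omega
  rw [hTc]
  exact_mod_cast ir_num q n #T hq2 hn hcard

end Pool.Agent.MP72S.SF
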