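import Pool.Agent.Lib.MP_72e2e6_nt.Sm.F.Spec

set_option autoImplicit false

namespace Pool.Agent.MP72S.SF

open Polynomial Finset
open Pool.Agent.MP72W Pool.Agent.MP72S.D

private theorem Mip_core {F k Q : Type} [Field F] [Field k] [Field Q] (Φ : k[X] →+* Q)
    (hΦi : Function.Injective Φ) (j : F[X] →+* k[X]) (hji : Function.Injective j)
    [Algebra (RatFunc F) Q] [Algebra.IsSeparable (RatFunc F) Q]
    (hj : ∀ x, Φ (j x) = algebraMap (RatFunc F) Q (algebraMap F[X] (RatFunc F) x))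
    (y : Q) (hy : Φ.IsIntegralElem y) :
    ∃ m : k[X][X], m.Monic ∧ Irreducible (m.map (algebraMap k[X] (RatFunc k))) ∧
      (m.map (algebraMap k[X] (RatFunc k))).Separable ∧ eval₂ Φ y m = 0 := by
  letI : Algebra k[X] Q := Φ.toAlgebra
  obtain ⟨ψ, hψ⟩ : ∃ ψ : RatFunc k →+* Q, ∀ x, ψ (algebraMap k[X] (RatFunc k) x) = Φ x :=
    ⟨IsFractionRing.lift hΦi, fun x => IsFractionRing.lift_algebraMap hΦi x⟩
  letI : Algebra (RatFunc k) Q := ψ.toAlgebra
  haveI : IsScalarTower k[X] (RatFunc k) Q :=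
    IsScalarTower.of_algebraMap_eq (fun x => (hψ x).symm)
  have hint : IsIntegral k[X] y := hy
  have hmin := minpoly.isIntegrallyClosed_eq_field_fractions' (RatFunc k) hint
  refine ⟨minpoly k[X] y, minpoly.monic hint, ?_, ?_, minpoly.aeval k[X] y⟩
  · rw [← hmin]
    exact minpoly.irreducible hint.tower_top
  · rw [← hmin]
    obtain ⟨θ, hθ⟩ : ∃ θ : RatFunc F →+* RatFunc k, ∀ x,
        θ (algebraMap F[X] (RatFunc F) x) = algebraMap _ _ (j x) :=
      ⟨IsFractionRing.map hji, fun x => IsLocalization.map_eq _ x⟩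
    have hθ' : ψ.comp θ = algebraMap (RatFunc F) Q := by
      apply IsLocalization.ringHom_ext (nonZeroDivisors F[X])
      refine RingHom.ext fun x => ?_
      rw [RingHom.comp_apply, RingHom.comp_apply, RingHom.comp_apply, hθ, hψ, hj]
    have hsep : (minpoly (RatFunc F) y).Separable :=
      Algebra.IsSeparable.isSeparable (RatFunc F) y
    apply (hsep.map (f := θ)).of_dvd
    apply minpoly.dvd
    change eval₂ ψ y _ = 0
    rw [eval₂_map, hθ']
    exact minpoly.aeval (RatFunc F) y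

theorem tMip (hK : D.S_Kk) (hG : D.S_QG) : S_Mip := by
  intro F _ _ y hy
  obtain ⟨-, -, -, -, htr⟩ := hK F
  obtain ⟨hGal, -, -, -, -⟩ := hG F
  have hΦi : Function.Injective (aeval (tQ F) : (kF F)[X] →ₐ[kF F] Qf F).toRingHom :=
    transcendental_iff_injective.1 htr
  have hΦC : ∀ c : kF F, (aeval (tQ F) : (kF F)[X] →ₐ[kF F] Qf F).toRingHom (C c) =
    algebraMap (kF F) (Qf F) c := fun c => aeval_C _ c
  have hΦX : (aeval (tQ F) : (kF F)[X] →ₐ[kF F] Qf F).toRingHom X = tQ F := aeval_X _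
  generalize (aeval (tQ F) : (kF F)[X] →ₐ[kF F] Qf F).toRingHom = Φ at *
  have hΦj : Φ.comp (mapRingHom (algebraMap F (kF F))) = iQ F := by
    apply Polynomial.ringHom_ext
    · intro a
      rw [RingHom.comp_apply, coe_mapRingHom, Polynomial.map_C, hΦC,
        ← IsScalarTower.algebraMap_apply F (kF F) (Qf F), iQ, RingHom.comp_apply,
        RatFunc.algebraMap_C, IsScalarTower.algebraMap_apply F (RatFunc F) (Qf F)]
      rfl
    · rw [RingHom.comp_apply, coe_mapRingHom, Polynomial.map_X, hΦX, iQ, RingHom.comp_apply,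
        RatFunc.algebraMap_X]
      rfl
  have hint : Φ.IsIntegralElem y := by
    obtain ⟨p, hp, hp0⟩ := hy
    refine ⟨p.map (mapRingHom (algebraMap F (kF F))), hp.map _, ?_⟩
    rw [eval₂_map, hΦj]
    exact hp0
  obtain ⟨m, h1, h2, h3, h4⟩ := Mip_core Φ hΦi (mapRingHom (algebraMap F (kF F)))
    (Polynomial.map_injective _ (algebraMap F (kF F)).injective)
    (fun x => DFunLike.congr_fun hΦj x) y hint
  refine ⟨m, h1, h2, h3, fun σ hσ => ?_⟩
  have h5 := congrArg (σ : Qf F →+* Qf F) h4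
  rw [hom_eval₂, map_zero] at h5
  have h6 : (σ : Qf F →+* Qf F).comp Φ = Φ := by
    apply Polynomial.ringHom_ext
    · intro c
      rw [RingHom.comp_apply, hΦC]
      exact hσ c
    · rw [RingHom.comp_apply, hΦX]
      exact σ.commutes _
  rw [h6] at h5
  exact h5

end Pool.Agent.MP72S.SF
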