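import Pool.Agent.Lib.MP_72e2e6_nt.Sm.F.Spec

/-!
# MP_72e2e6_nt, `Sm/F`, module `Nz`: integral elements are units at almost all places
-/

namespace Pool.Agent.MP72S.SF

open Polynomial Finset Pool.Agent.MP72W Pool.Agent.MP72S.D

private theorem nz_poly {R L : Type} [CommRing R] [Nontrivial R] [Field L] (i : R →+* L) (u : L)
    (hu : u ≠ 0) : ∀ (d : ℕ) (f : R[X]), f.natDegree = d → f.Monic → eval₂ i u f = 0 →
      ∃ g : R[X], g.Monic ∧ eval₂ i u g = 0 ∧ g.coeff 0 ≠ 0 := by
  intro d
  induction d with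
  | zero =>
    intro f hd hf h
    have h1 : f = 1 := hf.natDegree_eq_zero.1 hd
    rw [h1, eval₂_one] at h
    exact absurd h one_ne_zero
  | succ d ih =>
    intro f hd hf h
    by_cases h0 : f.coeff 0 = 0
    · have h1 : divX f * X = f := by
        have := divX_mul_X_add f
        rwa [h0, C_0, add_zero] at this
      have h2 : (divX f).Monic := Monic.of_mul_monic_right monic_X (by rw [h1]; exact hf)
      have h3 : (divX f).natDegree = d := by
        rw [natDegree_divX_eq_natDegree_tsub_one, hd]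
        rfl
      refine ih (divX f) h3 h2 ?_
      rw [← h1, eval₂_mul, eval₂_X] at h
      exact (mul_eq_zero.1 h).resolve_right hu
    · exact ⟨f, hf, h, h0⟩

theorem tNz (hRs : S_Rs) (hPc : D.S_Pc) : S_Nz := by
  classical
  intro F _ _ h2 A hA u hu hi
  obtain ⟨p, hp, hpu⟩ := hi
  obtain ⟨g, hg, hgu, hg0⟩ := nz_poly (iQ F) u hu _ p rfl hp hpu
  have hii : (iQ F).IsIntegralElem u := ⟨p, hp, hpu⟩
  have hint : ∀ f : F[X][X], (iQ F).IsIntegralElem (eval₂ (iQ F) u f) := by
    intro f
    induction f using Polynomial.induction_on' with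
    | add p q hp hq =>
      rw [eval₂_add]
      exact hp.add _ hq
    | monomial n a =>
      rw [eval₂_monomial]
      refine ((iQ F).isIntegralElem_map (x := a)).mul _ ?_
      induction n with
      | zero =>
        rw [pow_zero]
        exact (iQ F).isIntegralElem_one
      | succ n ih =>
        rw [pow_succ]
        exact ih.mul _ hii
  refine ⟨(g.coeff 0).natDegree + 1, fun P hP => ?_⟩
  obtain ⟨-, -, -, -, hpol, hel⟩ := hRs F h2 A hA P
  have hplc := (hPc F h2 (some P.1) (A (some P)) (hA.ok (some P))).1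
  have h3 : u * eval₂ (iQ F) u (divX g) = iQ F (-(g.coeff 0)) := by
    have h4 := divX_mul_X_add g
    rw [← h4, eval₂_add, eval₂_mul, eval₂_X, eval₂_C] at hgu
    rw [map_neg, eq_neg_iff_add_eq_zero, mul_comm]
    exact hgu
  have h4 := (hpol (-(g.coeff 0)) (neg_ne_zero.2 hg0)).2 (by rw [natDegree_neg]; omega)
  rw [← h3, hplc.mul] at h4
  refine le_antisymm ?_ (hel u hii)
  rw [← h4]
  exact le_add_of_nonneg_right (hel _ (hint _))

end Pool.Agent.MP72S.SF
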