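import Pool.Agent.Lib.MP_72e2e6_nt.Sm.F.Spec

/-! # MP_72e2e6_nt, Sm/F, module Pnt (helper51) -/

set_option autoImplicit false

namespace Pool.Agent.MP72S.SF

open Polynomial Pool.Agent.MP72W Pool.Agent.MP72S.D

/-- Integral elements are mapped to integral elements. -/
private theorem int_map {F : Type} [Field F] (σ : GQ F) (y : Qf F)
    (hy : (iQ F).IsIntegralElem y) : (iQ F).IsIntegralElem (σ y) := by
  obtain ⟨f, hf, h0⟩ := hy
  refine ⟨f, hf, ?_⟩
  have hc : (σ : Qf F →+* Qf F).comp (iQ F) = iQ F := by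
    apply RingHom.ext
    intro x
    show σ (algebraMap (RatFunc F) (Qf F) _) = _
    exact σ.commutes _
  have h1 := congrArg (σ : Qf F →+* Qf F) h0
  rw [hom_eval₂, hc, map_zero] at h1
  exact h1

section
variable {K : Type} [Field K] {L : Type} [Field L] [Algebra K L] {k : Type} [Field k]
    {t f : Gal(L/K)} {q : ℕ} {ν : L → WithTop ℚ} {res : L → k}

private theorem nu_one (h : C.Plc t f q ν res) : ν 1 = 0 := by
  have h1 : ν 1 ≠ ⊤ := fun h0 => one_ne_zero ((h.top 1).mp h0)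
  have h2 := h.mul 1 1
  rw [mul_one] at h2
  obtain ⟨a, ha⟩ := WithTop.ne_top_iff_exists.mp h1
  rw [← ha, ← WithTop.coe_add, WithTop.coe_inj] at h2
  rw [← ha, ← WithTop.coe_zero, WithTop.coe_inj]
  linarith

private theorem nu_neg (h : C.Plc t f q ν res) (x : L) : ν (-x) = ν x := by
  have h1 : ν (-1) = 0 := by
    have h0 : ν (-1) ≠ ⊤ := fun h0 => (neg_ne_zero.mpr one_ne_zero) ((h.top (-1)).mp h0)
    have h2 := h.mul (-1) (-1)
    rw [neg_mul_neg, mul_one, nu_one h] at h2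
    obtain ⟨a, ha⟩ := WithTop.ne_top_iff_exists.mp h0
    rw [← ha, ← WithTop.coe_add, ← WithTop.coe_zero, WithTop.coe_inj] at h2
    rw [← ha, ← WithTop.coe_zero, WithTop.coe_inj]
    linarith
  rw [← neg_one_mul, h.mul, h1, zero_add]

private theorem nu_zero (h : C.Plc t f q ν res) : ν 0 = ⊤ := (h.top 0).mpr rfl

/-- The valuation ring of `ν ∘ σ`. -/
private def ringO (h : C.Plc t f q ν res) (σ : L →+* L) : Subring L where
  carrier := {x | 0 ≤ ν (σ x)}
  mul_mem' := by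
    intro a b ha hb
    show 0 ≤ ν (σ (a * b))
    rw [map_mul, h.mul]
    exact add_nonneg ha hb
  one_mem' := by
    show 0 ≤ ν (σ 1)
    rw [map_one, nu_one h]
  add_mem' := by
    intro a b ha hb
    show 0 ≤ ν (σ (a + b))
    rw [map_add]
    exact le_trans (le_min ha hb) (h.add _ _)
  zero_mem' := by
    show 0 ≤ ν (σ 0)
    rw [map_zero, nu_zero h]
    exact le_top
  neg_mem' := by
    intro a ha
    show 0 ≤ ν (σ (-a))
    rw [map_neg, nu_neg h]
    exact ha

private theorem res_zero (h : C.Plc t f q ν res) : res 0 = 0 := by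
  rw [h.r0 0 (by rw [nu_zero h]; exact le_top), nu_zero h]
  exact WithTop.coe_lt_top 0

/-- The residue homomorphism. -/
private def resO (h : C.Plc t f q ν res) (σ : L →+* L) : ringO h σ →+* k where
  toFun x := res (σ x)
  map_one' := by
    show res (σ 1) = 1
    rw [map_one, h.r1]
  map_mul' a b := by
    show res (σ ((a : L) * b)) = _
    rw [map_mul]
    exact h.rmul _ _ a.2 b.2
  map_zero' := by
    show res (σ 0) = 0
    rw [map_zero, res_zero h]
  map_add' a b := by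
    show res (σ ((a : L) + b)) = _
    rw [map_add]
    exact h.radd _ _ a.2 b.2

/-- The equation of the image point. -/
private theorem core_eq [Algebra k L] (h : C.Plc t f q ν res) (σ : L →+* L) (p s : ℕ)
    [Fact p.Prime] [CharP k p] (T : L) (θ : k)
    (hc : ∀ κ : k, ∃ κ' : k, σ (algebraMap k L κ) = algebraMap k L κ' ∧ κ' ^ p ^ s = κ)
    (hν : ∀ κ : k, 0 ≤ ν (algebraMap k L κ)) (hres : ∀ κ : k, res (algebraMap k L κ) = κ)
    (hσT : σ T = T) (hTν : 0 ≤ ν T) (hresT : res T = θ) (m : k[X][X]) (x : L)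
    (hx : 0 ≤ ν (σ x)) (hm : eval₂ (aeval T : k[X] →ₐ[k] L).toRingHom x m = 0) :
    (m.map (evalRingHom (θ ^ p ^ s))).eval (res (σ x) ^ p ^ s) = 0 := by
  have hρe : ∀ x : ringO h σ, ((iterateFrobenius k p s).comp (resO h σ)) x =
      (res (σ (x : L))) ^ p ^ s := by
    intro x
    show iterateFrobenius k p s (res (σ (x : L))) = _
    rw [iterateFrobenius_def]
  generalize hρ : (iterateFrobenius k p s).comp (resO h σ) = ρ at hρe
  have hkO : ∀ κ : k, algebraMap k L κ ∈ ringO h σ := by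
    intro κ
    show 0 ≤ ν (σ (algebraMap k L κ))
    obtain ⟨κ', h1, -⟩ := hc κ
    rw [h1]
    exact hν κ'
  have htO : T ∈ ringO h σ := by
    show 0 ≤ ν (σ T)
    rw [hσT]
    exact hTν
  have hxO : x ∈ ringO h σ := hx
  let cO : k →+* ringO h σ := (algebraMap k L).codRestrict (ringO h σ) hkO
  let tO : ringO h σ := ⟨T, htO⟩
  have hρc : ∀ κ : k, ρ (cO κ) = κ := by
    intro κ
    rw [hρe]
    show (res (σ (algebraMap k L κ))) ^ p ^ s = κ
    obtain ⟨κ', h1, h3⟩ := hc κ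
    rw [h1, hres κ', h3]
  have hρt : ρ tO = θ ^ p ^ s := by
    rw [hρe]
    show (res (σ T)) ^ p ^ s = _
    rw [hσT, hresT]
  have h1 : eval₂ (eval₂RingHom cO tO) (⟨x, hxO⟩ : ringO h σ) m = 0 := by
    apply Subtype.val_injective
    have h3 := hom_eval₂ m (eval₂RingHom cO tO) (ringO h σ).subtype (⟨x, hxO⟩ : ringO h σ)
    have h4 : ((ringO h σ).subtype).comp (eval₂RingHom cO tO) =
        (aeval T : k[X] →ₐ[k] L).toRingHom := by
      apply ringHom_ext
      · intro a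
        rw [RingHom.comp_apply, coe_eval₂RingHom, eval₂_C]
        show (algebraMap k L a) = aeval T (C a)
        rw [aeval_C]
      · rw [RingHom.comp_apply, coe_eval₂RingHom, eval₂_X]
        show T = aeval T X
        rw [aeval_X]
    rw [h4] at h3
    exact h3.trans hm
  have h3 := congrArg ρ h1
  rw [hom_eval₂, map_zero] at h3
  have h4 : ρ.comp (eval₂RingHom cO tO) = evalRingHom (θ ^ p ^ s) := by
    apply ringHom_ext
    · intro a
      rw [RingHom.comp_apply, coe_eval₂RingHom, eval₂_C, hρc, coe_evalRingHom, eval_C]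
    · rw [RingHom.comp_apply, coe_eval₂RingHom, eval₂_X, hρt, coe_evalRingHom, eval_X]
  rw [h4, hρe] at h3
  rw [eval_map]
  exact h3

/-- Different elements have different residues. -/
private theorem core_sep (h : C.Plc t f q ν res) (x y : L) (hy : 0 ≤ ν y)
    (hxy : ν (x - y) = 0) : res x ≠ res y := by
  intro h1
  have h5 := h.radd (x - y) y (le_of_eq hxy.symm) hy
  rw [sub_add_cancel, h1] at h5
  have h6 : res (x - y) = 0 := by
    have h7 := h5
    rw [eq_comm, add_eq_right] at h7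
    exact h7
  rw [h.r0 _ (le_of_eq hxy.symm), hxy] at h6
  exact lt_irrefl _ h6

/-- Elements fixed by the Frobenius element. -/
private theorem core_fix (h : C.Plc t f q ν res) (x : L) (hx : 0 ≤ ν x) (hf : f x = x) (Q : ℕ) :
    (res x ^ Q) ^ q = res x ^ Q := by
  have h3 := h.rf x hx
  rw [hf] at h3
  rw [← pow_mul, Nat.mul_comm, pow_mul, ← h3]

end

/-- The power of a Frobenius element which is trivial on the constants. -/
private theorem sig {F : Type} [Field F] [Finite F] (hKk : D.S_Kk) (ψ : GQ F)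
    (hψ : ∀ c : Qf F, (c : Kgs F) ∈ Cst (Nat.card F) (Kgs F) → ψ c = c ^ Nat.card F) (j : ℕ) :
    ∀ κ : kF F, ∃ κ' : kF F, (ψ ^ j)⁻¹ (algebraMap (kF F) (Qf F) κ) =
      algebraMap (kF F) (Qf F) κ' ∧ κ' ^ Nat.card F ^ j = κ := by
  obtain ⟨-, hk2, hk3, -, -⟩ := hKk F
  have hψj : ∀ (i : ℕ) (c : Qf F), (c : Kgs F) ∈ Cst (Nat.card F) (Kgs F) →
      (ψ ^ i) c = c ^ Nat.card F ^ i := by
    intro i
    induction i with
    | zero => intro c _; rw [pow_zero, pow_zero, pow_one]; rfl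
    | succ i ih =>
      intro c hc
      have h1 : (ψ ^ (i + 1)) c = ψ ((ψ ^ i) c) := by
        rw [pow_succ']
        rfl
      rw [h1, ih c hc, map_pow, hψ c hc, ← pow_mul, pow_succ, Nat.mul_comm]
  have hσψ : ∀ x : Qf F, (ψ ^ j) ((ψ ^ j)⁻¹ x) = x := by
    intro x
    have h1 : (ψ ^ j * (ψ ^ j)⁻¹) x = x := by
      rw [mul_inv_cancel]
      rfl
    exact h1
  intro κ
  obtain ⟨i, hi, hκ⟩ := hk3 κ
  have h1 : ((ψ ^ j)⁻¹ (algebraMap (kF F) (Qf F) κ)) ^ Nat.card F ^ i =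
      (ψ ^ j)⁻¹ (algebraMap (kF F) (Qf F) κ) := by
    rw [← map_pow, ← map_pow, hκ]
  have hcst : (((ψ ^ j)⁻¹ (algebraMap (kF F) (Qf F) κ) : Qf F) : Kgs F) ∈
      Cst (Nat.card F) (Kgs F) := ⟨i, hi, congrArg (fun z : Qf F => (z : Kgs F)) h1⟩
  refine ⟨⟨(ψ ^ j)⁻¹ (algebraMap (kF F) (Qf F) κ), (hk2 _).mpr hcst⟩, rfl, ?_⟩
  apply Subtype.ext
  show ((ψ ^ j)⁻¹ (algebraMap (kF F) (Qf F) κ)) ^ Nat.card F ^ j = algebraMap (kF F) (Qf F) κ
  rw [← hψj j _ hcst, hσψ]

private theorem card_pow (F : Type) [Field F] [Finite F] : ∃ (p : ℕ) (_ : Fact p.Prime)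
    (_ : CharP (kF F) p) (r : ℕ), Nat.card F = p ^ r := by
  obtain ⟨p, hp⟩ := CharP.exists F
  have hpp : p.Prime := CharP.char_is_prime F p
  have hft : Fintype F := Fintype.ofFinite F
  obtain ⟨r, hpr, hr⟩ := FiniteField.card F p
  exact ⟨p, ⟨hpp⟩, charP_of_injective_algebraMap (algebraMap F (kF F)).injective p, r,
    by rw [Nat.card_eq_fintype_card, hr]⟩

/-- A conjugate of an element of the normal subgroup `H` fixes `y`. -/
private theorem conj_fix {F : Type} [Field F] (H : Subgroup (GQ F)) (y : Qf F) (hH : H.Normal)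
    (hyH : ∀ σ : GQ F, σ y = y ↔ σ ∈ H) (φ σ : GQ F) (hφ : φ ∈ H) : φ (σ y) = σ y := by
  have h3 : σ⁻¹ * φ * σ ∈ H := by
    have h4 := hH.conj_mem _ hφ σ⁻¹
    rw [inv_inv] at h4
    exact h4
  have h4 := (hyH _).mpr h3
  have h5 : (σ⁻¹ * φ * σ) y = σ⁻¹ (φ (σ y)) := rfl
  rw [h5] at h4
  have h6 := congrArg σ h4
  have h7 : σ (σ⁻¹ (φ (σ y))) = (σ * σ⁻¹) (φ (σ y)) := rfl
  rw [h7, mul_inv_cancel] at h6
  exact h6

/-- **Pnt**. The points given by a place which splits. -/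
theorem tPnt (hRs : S_Rs) (hPc : D.S_Pc) (_ : D.S_Ro) (hRq : D.S_Rq) (hKk : D.S_Kk) : S_Pnt := by
  intro F _ _ h2 A hA H y m hH hy hyH hm P hφ hsep j
  obtain ⟨hr1, hr2, hr3, hr4, -, hr6⟩ := hRs F h2 A hA P
  obtain ⟨hplc, -⟩ := hPc F h2 (Pl.o (some P : Pl F)) (A (some P)) (hA.ok (some P))
  obtain ⟨-, -, hq3, -⟩ := hRq F h2 (Pl.o (none : Pl F)) (A none) (hA.ok none)
  have hq3' : ∀ c : Qf F, (c : Kgs F) ∈ Cst (Nat.card F) (Kgs F) →
      (A none).rQ (A none).f c = c ^ Nat.card F := by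
    intro c hc
    rw [hq3 c hc]
    show c ^ (Nat.card F ^ 1) = _
    rw [pow_one]
  have hσκ := sig hKk ((A none).rQ (A none).f) hq3' j
  obtain ⟨p, hpf, hcp, r, hr⟩ := card_pow F
  have hqj : p ^ (r * j) = Nat.card F ^ j := by rw [hr, pow_mul]
  generalize (((A none).rQ (A none).f) ^ j)⁻¹ = σ at hσκ
  have hν : ∀ κ : kF F, 0 ≤ nuP (A (some P)) (algebraMap (kF F) (Qf F) κ) := by
    intro κ
    by_cases h0 : κ = 0
    · rw [h0, map_zero, nu_zero hplc]
      exact le_top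
    · exact le_of_eq (hr1 κ h0).symm
  have hyν : ∀ τ : GQ F, 0 ≤ nuP (A (some P)) (σ (τ y)) := fun τ =>
    hr6 _ (int_map σ _ (int_map τ _ hy))
  have hinj : Function.Injective (fun x : kF F => x ^ Nat.card F ^ j) := by
    have h1 : (fun x : kF F => x ^ Nat.card F ^ j) = iterateFrobenius (kF F) p (r * j) := by
      funext x
      rw [iterateFrobenius_def, hqj]
    rw [h1]
    exact (iterateFrobenius (kF F) p (r * j)).injective
  refine ⟨fun τ => (resP (A (some P)) (σ (τ y))) ^ Nat.card F ^ j, ?_, ?_, ?_⟩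
  · intro τ _ τ' _ hηη
    by_contra hne
    have h3 : (σ * τ) y ≠ (σ * τ') y := fun h => hne (σ.injective h)
    exact core_sep hplc (σ (τ y)) (σ (τ' y)) (hyν τ') (hsep (σ * τ) (σ * τ') h3) (hinj hηη)
  · have h1 := core_fix hplc (tQ F) hr3 (((A (some P)).rQ (A (some P)).f).commutes _)
      (Nat.card F ^ j)
    rw [hr4] at h1
    exact h1
  · intro τ hτ
    refine ⟨?_, ?_⟩
    · exact core_fix hplc (σ (τ y)) (hyν τ) (conj_fix H y hH hyH _ (σ * τ) hφ) (Nat.card F ^ j)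
    · have h3 := core_eq hplc (σ : Qf F →+* Qf F) p (r * j) (tQ F) (rtP A (some P))
        (fun κ => by rw [hqj]; exact hσκ κ) hν hr2 (σ.commutes _) hr3 hr4 m (τ y) (hyν τ)
        (hm τ hτ)
      rw [hqj] at h3
      exact h3

end Pool.Agent.MP72S.SF
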