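import Pool.Agent.Lib.MP_72e2e6_nt.Sm.F.Spec

/-!
# MP_72e2e6_nt, `Sm/F`, module `Rs`: residues of constants and of `t`, integrality
-/

namespace Pool.Agent.MP72S.SF

open Polynomial Finset Pool.Agent.MP72W Pool.Agent.MP72S.D

private theorem nuP_of {F : Type} [Field F] (A : Lcd F) (x : Qf F) (r : ℚ)
    (h : nm A.av (A.eQ x) = (1 / 2 : ℝ) ^ (r : ℝ)) : nuP A x = (r : WithTop ℚ) := by
  classical
  have hex : ∃ r : ℚ, nm A.av (A.eQ x) = (1 / 2 : ℝ) ^ (r : ℝ) := ⟨r, h⟩
  unfold nuP
  rw [dif_pos hex]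
  have h1 := h.symm.trans hex.choose_spec
  have h2 := (Real.rpow_right_inj (by norm_num : (0 : ℝ) < 1 / 2) (by norm_num)).1 h1
  have h3 : r = hex.choose := by exact_mod_cast h2
  rw [← h3]

private theorem resP_of {F : Type} [Field F] (A : Lcd F) (x : Qf F) (c : kF F)
    (h : nm A.av (A.eQ (x - c)) < 1)
    (hu : ∀ c' : kF F, nm A.av (A.eQ (x - c')) < 1 → c' = c) : resP A x = c := by
  classical
  have hex : ∃ c : kF F, nm A.av (A.eQ (x - c)) < 1 := ⟨c, h⟩
  unfold resP
  rw [dif_pos hex]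
  exact hu _ hex.choose_spec

theorem tRs (hLf : D.S_Lf) (hLn : D.S_Ln) (_hCs : D.S_Cs) (_hFg : D.S_Fg) (_hKk : D.S_Kk)
    (hRo : D.S_Ro) (hPc : D.S_Pc) : S_Rs := by
  classical
  intro F _ _ h2 A hA P
  set a : Lcd F := A (some P) with ha
  have hok : a.Ok (some P.1) := hA.ok (some P)
  obtain ⟨⟨R, hLF⟩, hun⟩ := hLf F (some P.1) a.av hok.pl
  obtain ⟨n0, nz, nmul, nadd, -, -, -, -⟩ := hLn F a.av _ _ R hLF
  obtain ⟨hplc, hval⟩ := hPc F h2 (some P.1) a hok
  obtain ⟨hro1, hro2, -⟩ := hRo F A hA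
  have hnm0 : nm a.av (a.eQ 0) < 1 := by
    rw [map_zero, (nz 0).2 rfl]
    exact one_pos
  have hneg : ∀ x : Kvs a.av, nm a.av (-x) = nm a.av x := by
    intro x
    have e1 : nm a.av (-x) * nm a.av (-x) = nm a.av x * nm a.av x := by
      rw [← nmul, ← nmul]
      congr 1
      ring
    exact (mul_self_eq_mul_self_iff.1 e1).elim id (fun h => by
      have e2 := n0 x
      have e3 := n0 (-x)
      linarith)
  -- uniqueness of the residue
  have huniq : ∀ (x : Qf F) (c c' : kF F), nm a.av (a.eQ (x - c)) < 1 →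
      nm a.av (a.eQ (x - c')) < 1 → c' = c := by
    intro x c c' h h'
    by_contra hne
    have e1 : nm a.av (a.eQ ((c' : Qf F) - c)) = 1 := hro2 (some P) c' c hne
    have e2 : a.eQ ((c' : Qf F) - c) = a.eQ (x - c) + -(a.eQ (x - c')) := by
      rw [← map_neg, ← map_add]
      congr 1
      ring
    rw [e2] at e1
    have e3 := nadd (a.eQ (x - c)) (-(a.eQ (x - c')))
    rw [e1, hneg] at e3
    exact absurd e3 (not_le.2 (max_lt h h'))
  -- polynomials
  have hpol : ∀ f : F[X], f ≠ 0 → nuP a (iQ F f) =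
      (((multiplicity P.1 f : ℤ) : ℚ) : WithTop ℚ) := by
    intro f hf
    apply hval
    have := hok.pl.2.2 f hf
    rw [this, zpow_natCast]
  have hpos : ∀ f : F[X], f ≠ 0 → 0 ≤ nuP a (iQ F f) := by
    intro f hf
    rw [hpol f hf]
    have e1 : (0 : ℚ) ≤ ((multiplicity P.1 f : ℤ) : ℚ) := by positivity
    exact_mod_cast e1
  have hpos' : ∀ f : F[X], 0 ≤ nuP a (iQ F f) := by
    intro f
    by_cases hf : f = 0
    · rw [hf, map_zero, (hplc.top 0).2 rfl]
      exact le_top
    · exact hpos f hf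
  have hν1 : nuP a (1 : Qf F) = 0 := by
    have e1 := hval 1 0 (by rw [map_one, zpow_zero])
    rw [map_one] at e1
    rw [e1]
    simp
  have htX : iQ F X = tQ F := by
    unfold iQ tQ
    rw [RingHom.comp_apply, RatFunc.algebraMap_X]
  refine ⟨?_, ?_, ?_, ?_, ?_, ?_⟩
  · intro κ hκ
    have e1 : nm a.av (a.eQ ((κ : Qf F) - ((0 : kF F) : Qf F))) = 1 := hro2 (some P) κ 0 hκ
    rw [ZeroMemClass.coe_zero, sub_zero] at e1
    have e2 := nuP_of a (κ : Qf F) 0 (by rw [e1, Rat.cast_zero, Real.rpow_zero])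
    rw [e2]
    simp
  · intro κ
    exact resP_of a κ κ (by rw [sub_self]; exact hnm0)
      (fun c' hc' => huniq κ κ c' (by rw [sub_self]; exact hnm0) hc')
  · rw [← htX]
    exact hpos' X
  · have e1 : nm a.av (a.eQ (tQ F - (rtP A (some P) : Qf F))) < 1 := (hro1 P).2
    exact resP_of a (tQ F) (rtP A (some P)) e1 (fun c' hc' => huniq _ _ _ e1 hc')
  · intro f hf
    refine ⟨hpos f hf, fun hdeg => ?_⟩
    rw [hpol f hf]
    have e1 : ¬ P.1 ∣ f := Polynomial.not_dvd_of_natDegree_lt hf hdeg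
    have e2 : multiplicity P.1 f = 0 := multiplicity_eq_zero.2 e1
    rw [e2]
    simp
  · intro u hu
    by_contra hneg0
    rw [not_le] at hneg0
    obtain ⟨p, hp, hpu⟩ := hu
    have hu0 : u ≠ 0 := by
      rintro rfl
      rw [(hplc.top 0).2 rfl] at hneg0
      exact absurd hneg0 not_top_lt
    -- the inverse
    have hx : 0 < nuP a u⁻¹ := by
      by_contra hc
      rw [not_lt] at hc
      have e1 : nuP a u + nuP a u⁻¹ = 0 := by
        rw [← hplc.mul, mul_inv_cancel₀ hu0, hν1]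
      have e2 : nuP a u + nuP a u⁻¹ ≤ nuP a u + 0 := by gcongr
      rw [e1, add_zero] at e2
      exact absurd e2 (not_le.2 hneg0)
    have hxk : ∀ k : ℕ, 0 < nuP a (u⁻¹ ^ (k + 1)) := by
      intro k
      induction k with
      | zero => rw [zero_add, pow_one]; exact hx
      | succ k ih =>
        rw [pow_succ, hplc.mul]
        exact lt_of_lt_of_le hx (le_add_of_nonneg_left ih.le)
    have hsum : ∀ (s : Finset ℕ) (g : ℕ → Qf F), (∀ i ∈ s, 0 < nuP a (g i)) →
        0 < nuP a (∑ i ∈ s, g i) := by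
      intro s g
      induction s using Finset.induction_on with
      | empty =>
        intro _
        rw [Finset.sum_empty, (hplc.top 0).2 rfl]
        exact WithTop.coe_lt_top _
      | insert b s hb ih =>
        intro h
        rw [Finset.sum_insert hb]
        refine lt_of_lt_of_le (lt_min (h b (Finset.mem_insert_self b s))
          (ih fun i hi => h i (Finset.mem_insert_of_mem hi))) (hplc.add _ _)
    rw [eval₂_eq_sum_range, Finset.sum_range_succ, hp.coeff_natDegree, map_one, one_mul] at hpu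
    have e1 : (1 : Qf F) = ∑ i ∈ Finset.range p.natDegree,
        iQ F (-(p.coeff i)) * u⁻¹ ^ (p.natDegree - i) := by
      have e2 : u ^ p.natDegree = -∑ i ∈ Finset.range p.natDegree, iQ F (p.coeff i) * u ^ i := by
        rw [eq_neg_iff_add_eq_zero, add_comm]
        exact hpu
      have e3 : (1 : Qf F) = u ^ p.natDegree * u⁻¹ ^ p.natDegree := by
        rw [← mul_pow, mul_inv_cancel₀ hu0, one_pow]
      rw [e3, e2, ← Finset.sum_neg_distrib, Finset.sum_mul]
      refine Finset.sum_congr rfl fun i hi => ?_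
      have e4 : u⁻¹ ^ p.natDegree = u⁻¹ ^ i * u⁻¹ ^ (p.natDegree - i) := by
        rw [← pow_add]
        congr 1
        have := Finset.mem_range.1 hi
        omega
      have e5 : u ^ i * u⁻¹ ^ i = 1 := by rw [← mul_pow, mul_inv_cancel₀ hu0, one_pow]
      rw [e4, map_neg]
      calc -(iQ F (p.coeff i) * u ^ i) * (u⁻¹ ^ i * u⁻¹ ^ (p.natDegree - i)) =
          -(iQ F (p.coeff i)) * (u ^ i * u⁻¹ ^ i) * u⁻¹ ^ (p.natDegree - i) := by ring
        _ = _ := by rw [e5, mul_one]
    have e6 : 0 < nuP a (1 : Qf F) := by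
      rw [e1]
      apply hsum
      intro i hi
      rw [hplc.mul]
      obtain ⟨k, hk⟩ : ∃ k, p.natDegree - i = k + 1 := by
        have := Finset.mem_range.1 hi
        exact ⟨p.natDegree - i - 1, by omega⟩
      rw [hk]
      exact lt_of_lt_of_le (hxk k) (le_add_of_nonneg_left (hpos' _))
    rw [hν1] at e6
    exact lt_irrefl _ e6

end Pool.Agent.MP72S.SF
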