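import Pool.Agent.Lib.MP_72e2e6_nt.Sm.F.Spec

/-!
# MP_72e2e6_nt, `Sm/F`: few places split completely
-/

namespace Pool.Agent.MP72S.SF

open Polynomial Finset
open Pool.Agent.MP72W Pool.Agent.MP72S.D

/-- conjugates of integral elements are integral -/
private theorem spl_int {F : Type} [Field F] (y : Qf F) (hy : (iQ F).IsIntegralElem y)
    (σ : GQ F) : (iQ F).IsIntegralElem (σ y) := by
  obtain ⟨P, hP, hP0⟩ := hy
  refine ⟨P, hP, ?_⟩
  have h1 : (σ : Qf F →+* Qf F).comp (iQ F) = iQ F := RingHom.ext fun x => σ.commutes _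
  have h2 := congrArg (σ : Qf F →+* Qf F) hP0
  rw [hom_eval₂, h1, map_zero] at h2
  exact h2

/-- the conjugates are finitely many -/
private theorem spl_fin {F : Type} [Field F] (y : Qf F) :
    (Set.range fun σ : GQ F => σ y).Finite := by
  classical
  have hint : IsIntegral (RatFunc F) y := Algebra.IsIntegral.isIntegral y
  have hne : (minpoly (RatFunc F) y).map (algebraMap (RatFunc F) (Qf F)) ≠ 0 :=
    ((minpoly.monic hint).map _).ne_zero
  refine ((((minpoly (RatFunc F) y).map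
    (algebraMap (RatFunc F) (Qf F))).roots).toFinset.finite_toSet).subset ?_
  rintro _ ⟨σ, rfl⟩
  rw [Finset.mem_coe, Multiset.mem_toFinset, mem_roots hne, IsRoot.def, eval_map_algebraMap]
  have h1 := congrArg σ (minpoly.aeval (RatFunc F) y)
  rw [map_zero, ← aeval_algHom_apply] at h1
  exact h1

/-- the number of the conjugates under the geometric group -/
private theorem spl_orb {F : Type} [Field F] (H : Subgroup (GQ F)) (y : Qf F)
    (hH : ∀ σ : GQ F, σ y = y ↔ σ ∈ H) :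
    ∃ R : Finset (Qf F), #R = H.relIndex (Gb F) ∧ ∀ z ∈ R, ∃ τ ∈ Gb F, τ y = z := by
  classical
  have h1 : (MulAction.orbit (Gb F) y).Finite := by
    refine (spl_fin y).subset ?_
    rintro _ ⟨τ, rfl⟩
    exact ⟨τ.1, rfl⟩
  refine ⟨h1.toFinset, ?_, ?_⟩
  · have h2 : MulAction.stabilizer (Gb F) y = H.subgroupOf (Gb F) := by
      ext τ
      rw [MulAction.mem_stabilizer_iff, Subgroup.mem_subgroupOf, ← hH]
      exact Iff.rfl
    have h3 : H.relIndex (Gb F) = (MulAction.orbit (Gb F) y).ncard := by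
      rw [← MulAction.index_stabilizer, h2]
      rfl
    rw [h3, Set.ncard_eq_toFinset_card _ h1]
  · intro z hz
    rw [Set.Finite.mem_toFinset] at hz
    obtain ⟨τ, rfl⟩ := hz
    exact ⟨τ.1, τ.2, rfl⟩

theorem tSpl (h_Ste : S_Ste) (h_Prm : S_Prm) (h_Mip : S_Mip) (h_Nz : S_Nz) (h_Pnt : S_Pnt)
    (h_Irc : S_Irc) (h_Kk : D.S_Kk) (h_Ro : D.S_Ro) : S_Spl := by
  classical
  intro F _ _ h2F A hA H hHn hHo
  obtain ⟨p, hpF⟩ := CharP.exists F
  have hkp : CharP (kF F) p := charP_of_injective_algebraMap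
    (algebraMap F (kF F)).injective p
  have : Fintype F := Fintype.ofFinite F
  obtain ⟨r0, hp, hr0⟩ := FiniteField.card F p
  have : Fact p.Prime := ⟨hp⟩
  obtain ⟨r, hr, hq⟩ : ∃ r : ℕ, 1 ≤ r ∧ Nat.card F = p ^ r :=
    ⟨r0, r0.2, by rw [Nat.card_eq_fintype_card, hr0]⟩
  have hk : IsAlgClosed (kF F) := (h_Kk F).1
  obtain ⟨y, hyi, hyH⟩ := h_Prm F H hHo
  obtain ⟨m, hm1, hm2, hm3, hm4⟩ := h_Mip F y hyi
  obtain ⟨hIf, n1, hn1⟩ := h_Irc F A hA
  obtain ⟨n2, hn2⟩ := h_Ste p (kF F) m hm1 hm2 hm3 (1 / 2) (by norm_num)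
  -- the differences of the conjugates
  obtain ⟨n3, hn3⟩ : ∃ n3 : ℕ, ∀ P : {P : F[X] // P.Monic ∧ Irreducible P},
      n3 ≤ P.1.natDegree → ∀ σ τ : GQ F, σ y ≠ τ y → nuP (A (some P)) (σ y - τ y) = 0 := by
    have h1 : ∀ u : Qf F, u ≠ 0 → (iQ F).IsIntegralElem u → ∃ n₀ : ℕ,
      ∀ P : {P : F[X] // P.Monic ∧ Irreducible P}, n₀ ≤ P.1.natDegree →
        nuP (A (some P)) u = 0 := h_Nz F h2F A hA
    choose! N hN using h1
    have hfin := spl_fin y
    refine ⟨(hfin.toFinset ×ˢ hfin.toFinset).sup (fun q => N (q.1 - q.2)), ?_⟩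
    intro P hP σ τ hστ
    refine hN (σ y - τ y) (sub_ne_zero.2 hστ) ((spl_int y hyi σ).sub (iQ F)
      (spl_int y hyi τ)) P (le_trans ?_ hP)
    have h2 : (σ y, τ y) ∈ hfin.toFinset ×ˢ hfin.toFinset := by
      rw [Finset.mem_product, Set.Finite.mem_toFinset, Set.Finite.mem_toFinset]
      exact ⟨⟨σ, rfl⟩, ⟨τ, rfl⟩⟩
    exact Finset.le_sup (f := fun q : Qf F × Qf F => N (q.1 - q.2)) h2
  obtain ⟨R, hR1, hR2⟩ := spl_orb H y hyH
  choose! tt htt1 htt2 using hR2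
  refine ⟨n1 + n2 + n3 + 1, fun n hn => ?_⟩
  obtain ⟨Cf, hCf⟩ : ∃ Cf : Finset (Pl F), (Cf : Set (Pl F)) =
      {w ∈ Irs F n | (A w).rQ (A w).f ∈ H} :=
    ⟨((hIf n).subset (Set.sep_subset _ _)).toFinset, by rw [Set.Finite.coe_toFinset]⟩
  have hmemC : ∀ w, w ∈ Cf → ∃ P : {P : F[X] // P.Monic ∧ Irreducible P}, w = some P ∧
      P.1.natDegree = n ∧ (A w).rQ (A w).f ∈ H := by
    intro w hw
    have h1 : w ∈ (Cf : Set (Pl F)) := hw
    rw [hCf] at h1
    obtain ⟨⟨P, hP1, hP2⟩, h2⟩ := h1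
    exact ⟨P, hP1, hP2, h2⟩
  have hpt : ∀ w, w ∈ Cf → ∀ j : ℕ, ∃ η : GQ F → kF F,
      (∀ τ ∈ Gb F, ∀ τ' ∈ Gb F, η τ = η τ' → τ y = τ' y) ∧
      (rtP A w ^ Nat.card F ^ j) ^ Nat.card F ^ n = rtP A w ^ Nat.card F ^ j ∧
      ∀ τ ∈ Gb F, η τ ^ Nat.card F ^ n = η τ ∧
        (m.map (evalRingHom (rtP A w ^ Nat.card F ^ j))).eval (η τ) = 0 := by
    intro w hw j
    obtain ⟨P, rfl, hPn, hP⟩ := hmemC w hw
    have h1 := h_Pnt F h2F A hA H y m hHn hyi hyH hm4 P hP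
      (fun σ τ hστ => hn3 P (by omega) σ τ hστ) j
    rw [hPn] at h1
    exact h1
  choose! η hη1 hη2 hη3 using hpt
  -- the points
  obtain ⟨Ψ, hΨ⟩ : ∃ Ψ : Pl F × ℕ × Qf F → kF F × kF F, Ψ = fun q =>
      (rtP A q.1 ^ Nat.card F ^ q.2.1, η q.1 q.2.1 (tt q.2.2)) := ⟨_, rfl⟩
  have hinj : Set.InjOn Ψ ((Cf ×ˢ (Finset.range n ×ˢ R) : Finset (Pl F × ℕ × Qf F)) :
      Set (Pl F × ℕ × Qf F)) := by
    rintro ⟨w, j, z⟩ hx ⟨w', j', z'⟩ hx' heq
    rw [Finset.mem_coe, Finset.mem_product, Finset.mem_product, Finset.mem_range] at hx hx'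
    obtain ⟨hw, hj, hz⟩ := hx
    obtain ⟨hw', hj', hz'⟩ := hx'
    change w ∈ Cf at hw
    change j < n at hj
    change z ∈ R at hz
    change w' ∈ Cf at hw'
    change j' < n at hj'
    change z' ∈ R at hz'
    rw [hΨ] at heq
    obtain ⟨h1, h2⟩ := Prod.mk.inj heq
    change rtP A w ^ Nat.card F ^ j = rtP A w' ^ Nat.card F ^ j' at h1
    change η w j (tt z) = η w' j' (tt z') at h2
    obtain ⟨P, hP1, hP2, -⟩ := hmemC w hw
    obtain ⟨P', hP1', hP2', -⟩ := hmemC w' hw'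
    have h3 := (h_Ro F A hA).2.2 (rtP A w ^ Nat.card F ^ j)
    have h4 := h3.unique (y₁ := (w, j)) (y₂ := (w', j'))
      ⟨by rw [hP1]; exact Option.some_ne_none P, by
        rw [hP1]
        change j < P.1.natDegree
        omega, rfl⟩
      ⟨by rw [hP1']; exact Option.some_ne_none P', by
        rw [hP1']
        change j' < P'.1.natDegree
        omega, h1.symm⟩
    obtain ⟨h5, h6⟩ := Prod.mk.inj h4
    subst h5
    subst h6
    have h7 := hη1 w hw j (tt z) (htt1 z hz) (tt z') (htt1 z' hz') h2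
    rw [htt2 z hz, htt2 z' hz'] at h7
    rw [h7]
  have hcard := Finset.card_image_of_injOn hinj
  have hrn : n2 ≤ r * n := le_trans (by omega) (Nat.le_mul_of_pos_left n hr)
  have hqn : Nat.card F ^ n = p ^ (r * n) := by rw [hq, ← pow_mul]
  have h1 := hn2 (r * n) hrn ((Cf ×ˢ (Finset.range n ×ˢ R)).image Ψ) (by
    intro z hz
    rw [Finset.mem_image] at hz
    obtain ⟨⟨w, j, z⟩, hx, rfl⟩ := hz
    rw [Finset.mem_product, Finset.mem_product, Finset.mem_range] at hx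
    obtain ⟨hw, hj, hz⟩ := hx
    change w ∈ Cf at hw
    change z ∈ R at hz
    rw [hΨ, ← hqn]
    have h3 := hη3 w hw j (tt z) (htt1 z hz)
    exact ⟨hη2 w hw j, h3.1, h3.2⟩)
  have h2 := hn1 n (by omega)
  rw [hcard, Finset.card_product, Finset.card_product, Finset.card_range, hR1] at h1
  have hCc : {w ∈ Irs F n | (A w).rQ (A w).f ∈ H}.ncard = #Cf := by
    rw [← hCf, Set.ncard_coe_finset]
  rw [hCc]
  have hn0 : (0 : ℝ) < n := by
    have : 0 < n := by omega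
    exact_mod_cast this
  have hqn' : (Nat.card F : ℝ) ^ n = (p : ℝ) ^ (r * n) := by exact_mod_cast hqn
  rw [hqn'] at h2
  have h3 : (n : ℝ) * ((#Cf : ℝ) * (H.relIndex (Gb F) : ℝ)) ≤
      n * (2 * ((Irs F n).ncard : ℝ)) := by
    push_cast at h1
    nlinarith
  have h4 := le_of_mul_le_mul_left h3 hn0
  exact_mod_cast h4

end Pool.Agent.MP72S.SF
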