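import Pool.Agent.Lib.MP_72e2e6_nt.Sm.F.Spec

set_option autoImplicit false

namespace Pool.Agent.MP72S.SF

open Polynomial Finset

/-- The homomorphism which belongs to a point. -/
private theorem Ste_hom {k : Type} [Field k] (m : k[X][X]) (z : k × k)
    (hz : (m.map (evalRingHom z.1)).eval z.2 = 0) :
    ∃ ρ : AdjoinRoot m →ₐ[k] k, ρ (AdjoinRoot.of m X) = z.1 ∧ ρ (AdjoinRoot.root m) = z.2 := by
  have h1 : m.eval₂ ((aeval z.1 : k[X] →ₐ[k] k) : k[X] →+* k) z.2 = 0 := by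
    rw [eval_map] at hz
    have h2 : ((aeval z.1 : k[X] →ₐ[k] k) : k[X] →+* k) = evalRingHom z.1 := by
      ext x
      · simp
      · simp
    rw [h2]
    exact hz
  refine ⟨AdjoinRoot.liftAlgHom m (aeval z.1) z.2 h1, ?_, ?_⟩
  · rw [AdjoinRoot.liftAlgHom_of, aeval_X]
  · rw [AdjoinRoot.liftAlgHom_root]

theorem tSte (hSt : S_SteA) (hC : S_CrvB) (hH : S_Hns) : S_Ste := by
  intro p _ k _ _ _ m hm hirr hsep δ hδ
  classical
  obtain ⟨hdom, h, hinj⟩ := hH k m hm hirr hsep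
  have hdeg : 1 ≤ m.natDegree := by
    by_contra hd
    have h1 : m = 1 := hm.natDegree_eq_zero.1 (by omega)
    rw [h1, Polynomial.map_one] at hirr
    exact not_irreducible_one hirr
  obtain ⟨d, c, a₀, hF, hspan⟩ := hC k m hm hdeg
  obtain ⟨n₀, hn⟩ := hSt p k (AdjoinRoot m) (SS m d) m.natDegree c a₀ hF
    {x | ∃ i j, x = mon m i j} hspan h hinj δ hδ
  refine ⟨n₀, fun n hn0 Z hZ => ?_⟩
  choose ρ hρ1 hρ2 using fun z : Z => Ste_hom m z.1 (hZ z.1 z.2).2.2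
  have hρi : Function.Injective ρ := by
    intro z z' hzz
    apply Subtype.ext
    apply Prod.ext
    · rw [← hρ1 z, ← hρ1 z', hzz]
    · rw [← hρ2 z, ← hρ2 z', hzz]
  have h1 := hn n hn0 (Finset.univ.image ρ) (by
    intro r hr x hx
    obtain ⟨z, -, rfl⟩ := Finset.mem_image.1 hr
    obtain ⟨i, j, rfl⟩ := hx
    obtain ⟨h1, h2, -⟩ := hZ z.1 z.2
    have h3 : ρ z (mon m i j) = z.1.1 ^ i * z.1.2 ^ j := by
      rw [mon, map_mul, map_pow, map_pow, map_pow, hρ1, hρ2]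
    rw [h3, mul_pow, ← pow_mul, ← pow_mul, mul_comm i, mul_comm j, pow_mul, pow_mul, h1, h2])
  rwa [Finset.card_image_of_injective _ hρi, Finset.card_univ, Fintype.card_coe] at h1

end Pool.Agent.MP72S.SF
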