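import Pool.Agent.Lib.MP_72e2e6_nt.Sm.F.Spec

/-!
# MP_72e2e6_nt, `Sm/F`, SteA: Stepanov's bound in the abstract form (helper82)
-/

set_option autoImplicit false

namespace Pool.Agent.MP72S.SF

open Polynomial Finset

/-- The choice of the numbers. -/
private lemma steA_num (p g a₀ : ℕ) (c : ℤ) (hp : 2 ≤ p) (hg : 1 ≤ g) (δ : ℝ) (hδ : 0 < δ) :
    ∃ μ a l : ℕ, a₀ ≤ a ∧ a₀ ≤ l ∧
      ((g : ℤ) * ((p ^ μ * a + l : ℕ) : ℤ) + c < (g * (a : ℤ) + c) * (g * (l : ℤ) + c)) ∧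
      (g : ℝ) * l ≤ (1 + 3 / 4 * δ) * (p : ℝ) ^ μ := by
  obtain ⟨A, hA⟩ : ∃ A : ℝ, A = |(c : ℝ)| + g := ⟨_, rfl⟩
  have hA0 : 0 ≤ A := by rw [hA]; positivity
  obtain ⟨μ, hμ⟩ : ∃ μ : ℕ, max (4 * A / δ) (g * a₀ + A + 1) < (p : ℝ) ^ μ :=
    pow_unbounded_of_one_lt _ (by exact_mod_cast (by omega : 1 < p))
  obtain ⟨P, hP⟩ : ∃ P : ℝ, P = (p : ℝ) ^ μ := ⟨_, rfl⟩
  rw [← hP] at hμ
  have h1 : 4 * A / δ < P := lt_of_le_of_lt (le_max_left _ _) hμ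
  have h2 : g * a₀ + A + 1 < P := lt_of_le_of_lt (le_max_right _ _) hμ
  have hP0 : 0 < P := by
    have : (0 : ℝ) ≤ g * a₀ := by positivity
    linarith
  have h3 : A ≤ δ / 4 * P := by
    rw [div_lt_iff₀ hδ] at h1
    linarith
  have hg0 : (0 : ℝ) < g := by exact_mod_cast hg
  have hg1 : (1 : ℝ) ≤ g := by exact_mod_cast hg
  have hc1 : (c : ℝ) ≤ |(c : ℝ)| := le_abs_self _
  have hc2 : -(c : ℝ) ≤ |(c : ℝ)| := neg_le_abs _
  obtain ⟨x, hx⟩ : ∃ x : ℝ, x = ((1 + δ / 2) * P - c) / g := ⟨_, rfl⟩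
  have hgx : (g : ℝ) * x = (1 + δ / 2) * P - c := by
    rw [hx]
    field_simp
  have hδP : 0 < δ * P := mul_pos hδ hP0
  have hx0 : 0 ≤ x := by
    by_contra hneg
    push Not at hneg
    have h4 : (g : ℝ) * x < 0 := mul_neg_of_pos_of_neg hg0 hneg
    have h5 : (0 : ℝ) ≤ g * a₀ := by positivity
    linarith
  obtain ⟨l, hl1, hl2⟩ : ∃ l : ℕ, x ≤ l ∧ (l : ℝ) < x + 1 :=
    ⟨⌈x⌉₊, Nat.le_ceil x, Nat.ceil_lt_add_one hx0⟩
  have hgl1 : (1 + δ / 2) * P - c ≤ g * l := by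
    rw [← hgx]
    exact mul_le_mul_of_nonneg_left hl1 hg0.le
  have hgl2 : (g : ℝ) * l ≤ (1 + δ / 2) * P - c + g := by
    have h4 := mul_le_mul_of_nonneg_left hl2.le hg0.le
    rw [mul_add, hgx] at h4
    linarith
  have hal : a₀ ≤ l := by
    by_contra hcon
    push Not at hcon
    have h4 : (l : ℝ) ≤ a₀ := by exact_mod_cast hcon.le
    have h5 := mul_le_mul_of_nonneg_left h4 hg0.le
    linarith
  obtain ⟨X, hX⟩ : ∃ X : ℤ, X = g * (l : ℤ) + c := ⟨_, rfl⟩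
  have hXP : (p : ℤ) ^ μ < X := by
    have h4 : (p : ℝ) ^ μ < (X : ℝ) := by
      rw [← hP, hX]
      push_cast
      linarith
    exact_mod_cast h4
  refine ⟨μ, a₀ + ((1 - c) * X).toNat + 1, l, by omega, hal, ?_, ?_⟩
  · obtain ⟨a, ha⟩ : ∃ a : ℕ, a = a₀ + ((1 - c) * X).toNat + 1 := ⟨_, rfl⟩
    rw [← ha, ← hX]
    have h4 : (1 - c) * X < a := by
      rw [ha]
      push_cast
      have := Int.self_le_toNat ((1 - c) * X)
      omega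
    have h5 : (a : ℤ) ≤ g * a * (X - (p : ℤ) ^ μ) := by
      have h6 : (1 : ℤ) ≤ g := by exact_mod_cast hg
      have h7 : (1 : ℤ) ≤ X - (p : ℤ) ^ μ := by omega
      have h8 : (0 : ℤ) ≤ a := by positivity
      calc (a : ℤ) = 1 * a * 1 := by ring
        _ ≤ g * a * (X - (p : ℤ) ^ μ) := by
          apply mul_le_mul (mul_le_mul_of_nonneg_right h6 h8) h7 (by norm_num)
          positivity
    push_cast
    have h9 : (l : ℤ) * g + c = X := by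
      rw [hX]
      ring
    nlinarith [h4, h5, h9]
  · rw [← hP]
    have h4 : (g : ℝ) * l ≤ (1 + δ / 2) * P + A := by
      rw [hA]
      linarith
    linarith

theorem tSteA : S_Zr → S_Aux → S_SteA := by
  intro hZr hAux p _ k B _ _ _ _ _ _ S g c a₀ hF M hM h hh δ hδ
  have hp : p.Prime := Fact.out
  obtain ⟨μ, a, l, ha, hl, hlt, hle⟩ := steA_num p g a₀ c hp.two_le hF.g1 δ hδ
  have hfr : Module.finrank k (S (p ^ μ * a + l)) < Module.finrank k (S a) *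
      Module.finrank k (S l) := by
    have h1 : ((Module.finrank k (S (p ^ μ * a + l)) : ℕ) : ℤ) <
        ((Module.finrank k (S a) * Module.finrank k (S l) : ℕ) : ℤ) := by
      rw [hF.dim _ (le_trans hl (Nat.le_add_left _ _)), Nat.cast_mul, hF.dim a ha, hF.dim l hl]
      exact hlt
    exact_mod_cast h1
  obtain ⟨N, hN⟩ := hAux p k B S g c a₀ hF M hM h hh a l μ hfr
  have hp1 : (1 : ℝ) < p := by exact_mod_cast hp.one_lt
  obtain ⟨ν₀, hν₀⟩ : ∃ ν₀ : ℕ, max (N : ℝ) (4 * (g * a) / δ) < (p : ℝ) ^ ν₀ :=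
    pow_unbounded_of_one_lt _ hp1
  have h1 : (N : ℝ) < (p : ℝ) ^ ν₀ := lt_of_le_of_lt (le_max_left _ _) hν₀
  have h2 : 4 * (g * a) / δ < (p : ℝ) ^ ν₀ := lt_of_le_of_lt (le_max_right _ _) hν₀
  refine ⟨μ + ν₀, fun n hn Z hZ => ?_⟩
  obtain ⟨ν, rfl⟩ : ∃ ν, n = μ + ν := ⟨n - μ, by omega⟩
  have hν : ν₀ ≤ ν := by omega
  have h3 : (p : ℝ) ^ ν₀ ≤ (p : ℝ) ^ ν := pow_le_pow_right₀ hp1.le hν
  have h4 : N ≤ p ^ ν := by
    have : (N : ℝ) ≤ ((p ^ ν : ℕ) : ℝ) := by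
      push_cast
      linarith
    exact_mod_cast this
  obtain ⟨f, hfS, hf0, hfρ⟩ := hN ν h4
  have h5 := hZr k B S g c a₀ hF _ f hfS hf0 Z fun ρ hρ => hfρ ρ (hZ ρ hρ)
  have h6 : (#Z : ℝ) ≤ g * (a + l * (p : ℝ) ^ ν) := by exact_mod_cast h5
  have h7 : (g : ℝ) * a ≤ δ / 4 * (p : ℝ) ^ (μ + ν) := by
    have h8 : (p : ℝ) ^ ν ≤ (p : ℝ) ^ (μ + ν) := pow_le_pow_right₀ hp1.le (Nat.le_add_left _ _)
    rw [div_lt_iff₀ hδ] at h2
    have h9 : (p : ℝ) ^ ν₀ * δ ≤ (p : ℝ) ^ (μ + ν) * δ :=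
      mul_le_mul_of_nonneg_right (h3.trans h8) hδ.le
    linarith
  have h10 : (g : ℝ) * l * (p : ℝ) ^ ν ≤ (1 + 3 / 4 * δ) * (p : ℝ) ^ (μ + ν) := by
    rw [pow_add, ← mul_assoc]
    exact mul_le_mul_of_nonneg_right hle (by positivity)
  calc (#Z : ℝ) ≤ g * a + g * l * (p : ℝ) ^ ν := by linarith
    _ ≤ (1 + δ) * (p : ℝ) ^ (μ + ν) := by linarith

end Pool.Agent.MP72S.SF
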