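import Pool.Agent.Lib.MP_72e2e6_nt.Sm.F.Spec

set_option autoImplicit false

namespace Pool.Agent.MP72S.SF

open Polynomial Finset

/-- The evaluation at finitely many different homomorphisms is surjective. -/
private theorem Zr_surj {k B : Type} [Field k] [CommRing B] [Algebra k B]
    (Z : Finset (B →ₐ[k] k)) :
    Function.Surjective (LinearMap.pi (fun ρ : Z => ρ.1.toLinearMap) : B →ₗ[k] (Z → k)) := by
  classical
  rw [← LinearMap.range_eq_top]
  by_contra hne
  obtain ⟨ξ, hξ0, hξ⟩ := Submodule.exists_le_ker_of_lt_top _ (lt_top_iff_ne_top.2 hne)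
  have hinj : Function.Injective (fun ρ : Z => ((ρ.1 : B →ₐ[k] k) : B →* k)) := by
    intro ρ ρ' h
    apply Subtype.ext
    ext x
    exact DFunLike.congr_fun h x
  have hli := (linearIndependent_monoidHom B k).comp _ hinj
  have h0 : ∀ ρ : Z, ξ (Pi.single ρ 1) = 0 := by
    have := Fintype.linearIndependent_iff.1 hli (fun ρ => ξ (Pi.single ρ 1)) (by
      funext x
      rw [Finset.sum_apply]
      have hx : ξ (LinearMap.pi (fun ρ : Z => ρ.1.toLinearMap) x) = 0 :=
        hξ (LinearMap.mem_range_self _ x)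
      rw [pi_eq_sum_univ' (LinearMap.pi (fun ρ : Z => ρ.1.toLinearMap) x), map_sum] at hx
      rw [Pi.zero_apply, ← hx]
      refine Finset.sum_congr rfl fun ρ _ => ?_
      rw [map_smul, smul_eq_mul, Pi.smul_apply, smul_eq_mul, mul_comm]
      rfl)
    exact this
  apply hξ0
  refine LinearMap.pi_ext' fun ρ => ?_
  ext
  simp [h0]

theorem tZr : S_Zr := by
  intro k B _ _ _ _ S g c a₀ hF a f hf hf0 Z hZ
  classical
  have hsurj := Zr_surj Z
  set ev : B →ₗ[k] (Z → k) := LinearMap.pi (fun ρ : Z => ρ.1.toLinearMap) with hev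
  choose b hb using fun ρ : Z => hsurj (Pi.single ρ 1)
  choose n hn using fun ρ : Z => hF.ex (b ρ)
  set N := a₀ + ∑ ρ, n ρ with hN
  have hbN : ∀ ρ, b ρ ∈ S N := fun ρ => hF.mono
    (le_trans (Finset.single_le_sum (fun _ _ => Nat.zero_le _) (Finset.mem_univ ρ))
      (Nat.le_add_left _ _)) (hn ρ)
  have hev1 : ∀ v : Z → k, ∃ x ∈ S N, ev x = v := by
    intro v
    refine ⟨∑ ρ, v ρ • b ρ, Submodule.sum_mem _ fun ρ _ => Submodule.smul_mem _ _ (hbN ρ), ?_⟩
    rw [map_sum]
    conv_rhs => rw [pi_eq_sum_univ' v]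
    refine Finset.sum_congr rfl fun ρ _ => ?_
    rw [map_smul, hb]
  have := hF.fd (N + a)
  have := hF.fd N
  set L : S (N + a) →ₗ[k] (Z → k) := ev.domRestrict (S (N + a)) with hL
  have hLs : Function.Surjective L := by
    intro v
    obtain ⟨x, hx, hxv⟩ := hev1 v
    exact ⟨⟨x, hF.mono (Nat.le_add_right _ _) hx⟩, hxv⟩
  have hrk := LinearMap.finrank_range_add_finrank_ker L
  rw [LinearMap.range_eq_top.2 hLs, finrank_top, Module.finrank_fintype_fun_eq_card,
    Fintype.card_coe] at hrk
  -- multiplication by `f`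
  have hmem : ∀ x : S N, f * x.1 ∈ S (N + a) := fun x => by
    rw [Nat.add_comm]
    exact hF.mul _ _ _ _ hf x.2
  let μ : S N →ₗ[k] S (N + a) :=
    { toFun := fun x => ⟨f * x.1, hmem x⟩
      map_add' := fun x y => Subtype.ext (by
        change f * (x.1 + y.1) = f * x.1 + f * y.1
        rw [mul_add])
      map_smul' := fun r x => Subtype.ext (by
        change f * (r • x.1) = r • (f * x.1)
        rw [mul_smul_comm]) }
  have hμi : Function.Injective μ := by
    intro x y h
    have h1 : f * x.1 = f * y.1 := congrArg Subtype.val h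
    exact Subtype.ext (mul_left_cancel₀ hf0 h1)
  have hμr : LinearMap.range μ ≤ LinearMap.ker L := by
    rintro _ ⟨x, rfl⟩
    rw [LinearMap.mem_ker]
    funext ρ
    change ρ.1 (f * x.1) = 0
    rw [map_mul, hZ ρ.1 ρ.2, zero_mul]
  have h1 : Module.finrank k (S N) ≤ Module.finrank k (LinearMap.ker L) := by
    rw [← LinearMap.finrank_range_of_inj hμi]
    exact Submodule.finrank_mono hμr
  have h2 := hF.dim (N + a) (by omega)
  have h3 := hF.dim N (by omega)
  have h4 : ((#Z : ℕ) : ℤ) + Module.finrank k (S N) ≤ Module.finrank k (S (N + a)) := by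
    rw [← hrk]
    push_cast
    linarith [(Nat.cast_le (α := ℤ)).2 h1]
  rw [h2, h3] at h4
  push_cast at h4
  have h5 : ((#Z : ℕ) : ℤ) ≤ g * a := by linarith
  exact_mod_cast h5

end Pool.Agent.MP72S.SF
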