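import Pool.Agent.Lib.MP_72e2e6_nt.Sm.F.Spec

namespace Pool.Agent.MP72S.SF

open Polynomial Finset

private theorem prm_aux (A k E : Type) [CommRing A] [IsDomain A] [Field k] [Field E] [Algebra A k]
    [IsFractionRing A k] [Algebra k E] [IsGalois k E] (H : Subgroup Gal(E/k))
    (hH : IsOpen (H : Set Gal(E/k))) :
    ∃ y : E, ((algebraMap k E).comp (algebraMap A k)).IsIntegralElem y ∧
      ∀ σ : Gal(E/k), σ y = y ↔ σ ∈ H := by
  letI : Algebra A E := ((algebraMap k E).comp (algebraMap A k)).toAlgebra
  haveI : IsScalarTower A k E := IsScalarTower.of_algebraMap_eq (fun _ => rfl)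
  have hcl : IsClosed (H : Set Gal(E/k)) := Subgroup.isClosed_of_isOpen H hH
  set L : IntermediateField k E := IntermediateField.fixedField H with hL
  have hfix : L.fixingSubgroup = H := InfiniteGalois.fixingSubgroup_fixedField ⟨H, hcl⟩
  have hfd : FiniteDimensional k L := by
    rw [← InfiniteGalois.isOpen_iff_finite, hfix]
    exact hH
  obtain ⟨α, hα⟩ := Field.exists_primitive_element k L
  have hL2 : L = IntermediateField.adjoin k {(α : E)} := by
    have h1 := congrArg IntermediateField.lift hα
    rw [IntermediateField.lift_adjoin_simple, IntermediateField.lift_top] at h1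
    exact h1.symm
  have halg : IsAlgebraic A (α : E) := by
    have h1 : IsAlgebraic k (α : E) := Algebra.IsAlgebraic.isAlgebraic _
    exact (IsFractionRing.isAlgebraic_iff A k E).2 h1
  obtain ⟨d, hd, hint⟩ := halg.exists_integral_multiple
  have hd' : algebraMap A k d ≠ 0 := fun h =>
    hd ((IsFractionRing.injective A k) (by rw [h, map_zero]))
  have hsm : d • (α : E) = algebraMap k E (algebraMap A k d) * (α : E) := by
    rw [Algebra.smul_def]
    rfl
  refine ⟨d • (α : E), hint, fun σ => ?_⟩
  have h2 : σ (d • (α : E)) = d • (α : E) ↔ σ (α : E) = α := by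
    rw [hsm, map_mul, AlgEquiv.commutes]
    constructor
    · intro h
      exact mul_left_cancel₀ ((_root_.map_ne_zero _).2 hd') h
    · intro h
      rw [h]
  rw [h2]
  constructor
  · intro h
    rw [← hfix, IntermediateField.mem_fixingSubgroup_iff]
    intro x hx
    rw [hL2] at hx
    induction hx using IntermediateField.adjoin_induction with
    | mem x hx =>
      rw [Set.mem_singleton_iff.1 hx]
      exact h
    | algebraMap x => exact σ.commutes x
    | add x y _ _ hx hy => rw [map_add, hx, hy]
    | inv x _ hx => rw [map_inv₀, hx]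
    | mul x y _ _ hx hy => rw [map_mul, hx, hy]
  · intro h
    exact (IntermediateField.mem_fixedField_iff _ _).1 α.2 σ h

theorem tPrm : D.S_QG → S_Prm := by
  intro hQG F _ _ H hH
  haveI : IsGalois (RatFunc F) (D.Qf F) := (hQG F).1
  exact prm_aux F[X] (RatFunc F) (D.Qf F) H hH

end Pool.Agent.MP72S.SF
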