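import Pool.Agent.Lib.MP_72e2e6_nt.Sm.D.Spec

/-!
# MP_72e2e6_nt, `Sm/F`: Stepanov's upper bound for plane curves, and places which split completely

Modules `Zr`, `Ind`, `Aux`, `SteA`, `CrvA`, `CrvB`, `Dom`, `Hns`, `Ste`: for a monic absolutely irreducible
separable `m ∈ k[X][Y]` the number of the points over the field with `p ^ n` elements is at most
`(1 + δ) p ^ n` for large `n`. Modules `Rs`, `Prm`, `Mip`, `Nz`, `Pnt`, `Irc`, `Spl`: application to places with
`φ ∈ H`. File `Sm/F/<Name>.lean` with `theorem t<Name> (h1 : S_X) .. : S_<Name>` (the used statements in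
the order of the docstring), namespace `Pool.Agent.MP72S.SF`, other declarations `private`.
-/

namespace Pool.Agent.MP72S.SF

open Polynomial Finset

/-- A filtration with linear growth of the commutative `k`-algebra `B`. -/
structure Flt (k B : Type) [Field k] [CommRing B] [Algebra k B] (S : ℕ → Submodule k B) (g : ℕ)
    (c : ℤ) (a₀ : ℕ) : Prop where
  g1 : 1 ≤ g
  mono : Monotone S
  one : (1 : B) ∈ S 0
  mul : ∀ a b x y, x ∈ S a → y ∈ S b → x * y ∈ S (a + b)
  ex : ∀ x, ∃ a, x ∈ S a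
  fd : ∀ a, Module.Finite k (S a)
  dim : ∀ a, a₀ ≤ a → (Module.finrank k (S a) : ℤ) = g * a + c

/-- **Zr** (80 lines). The number of the zeros of an element of `S a`.

Proof. The elements of `Z` are different homomorphisms of monoids `B → k`, so they are linearly
independent (`linearIndependent_monoidHom`). So the `k`-linear map `ev : B → (Z → k)` is surjective
(otherwise its range is in a hyperplane `∑ c_ρ x_ρ = 0`, `c ≠ 0`, which gives a relation). Choose
preimages of the unit vectors; they are in `S N` for some `N ≥ a₀` (`ex`, `mono`). The restriction of `ev`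
to `S (N + a)` is surjective, and its kernel contains `f • S N`, which has the same dimension as `S N`
as `B` is a domain. So `g (N + a) + c = finrank S (N + a) ≥ #Z + finrank S N = #Z + g N + c`. -/
def S_Zr : Prop :=
  ∀ (k B : Type) [Field k] [CommRing B] [IsDomain B] [Algebra k B] (S : ℕ → Submodule k B) (g : ℕ)
    (c : ℤ) (a₀ : ℕ), Flt k B S g c a₀ → ∀ (a : ℕ) (f : B), f ∈ S a → f ≠ 0 →
    ∀ Z : Finset (B →ₐ[k] k), (∀ ρ ∈ Z, ρ f = 0) → #Z ≤ g * a

/-- **Ind** (90 lines). Independence over the `p ^ ν`-th powers.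

Proof. For `N : ℕ` let `R_N ≤ (ι → k)` be the subspace of the `c` with `X ^ N ∣ ∑ C (c i) * e i`. It is a
decreasing sequence of subspaces of a space of finite dimension, so it is constant for `N ≥ N₀`
(`IsArtinian.monotone_stabilizes`), and the intersection of all `R_N` is `0` (if all coefficients of
`∑ c i • e i` are `0` then it is `0`, so `c = 0`). So `R_N = 0` for `N = N₀`. Let `p ^ ν ≥ N` and
`∑ z i ^ p ^ ν * e i = 0`, `z ≠ 0`. Let `w` be the minimum of the orders of the `z i ≠ 0`,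
`z i = X ^ w * u i`, where some `u i` has constant coefficient `≠ 0`. Then
`X ^ (w p ^ ν) * ∑ u i ^ p ^ ν * e i = 0`, so `∑ u i ^ p ^ ν * e i = 0`. `u i = C (c i) + X * v i`, so
`u i ^ p ^ ν = C (c i ^ p ^ ν) + X ^ (p ^ ν) * v i ^ p ^ ν` (characteristic `p`), so
`(c i ^ p ^ ν)_i ∈ R_N = 0`, and all `c i = 0`, a contradiction. -/
def S_Ind : Prop :=
  ∀ (p : ℕ) [Fact p.Prime] (k : Type) [Field k] [CharP k p] (ι : Type) [Fintype ι]
    (e : ι → PowerSeries k), LinearIndependent k e → ∃ N : ℕ, ∀ ν : ℕ, N ≤ p ^ ν →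
    ∀ z : ι → PowerSeries k, ∑ i, z i ^ p ^ ν * e i = 0 → z = 0

/-- **Aux** (150 lines, uses `S_Ind`). The auxiliary function of Stepanov.

Proof. Let `e i`, `i ∈ I` be a basis of `S a` and `b j`, `j ∈ J` a basis of `S l` which consists of elements of
`M` (`exists_linearIndependent` in a spanning set, finite as `S l` has finite dimension). `h (e i)` are
independent power series (`h` injective and `k`-linear); let `N` be from `S_Ind`. Let `p ^ ν ≥ N`. The
elements `e i ^ p ^ μ * b j ∈ S (p ^ μ * a + l)` (`mul`, `one`) are more than the dimension, so there is a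
relation `∑ d i j • (e i ^ p ^ μ * b j) = 0` with `d ≠ 0`. Let `c i j ^ p ^ μ = d i j` and
`c' i j ^ p ^ ν = c i j` (`k` algebraically closed). `f = ∑ c i j • (e i * b j ^ p ^ ν)`. It is in
`S (a + l * p ^ ν)`. Let `ρ x ^ p ^ (μ + ν) = ρ x` for `x ∈ M`. Then
`(ρ f) ^ p ^ μ = ∑ d i j * ρ (e i) ^ p ^ μ * ρ (b j) ^ p ^ (ν + μ) = ρ (∑ d i j • (e i ^ p ^ μ * b j)) = 0`,
so `ρ f = 0`. Suppose `f = 0`. `z i = h (∑_j c' i j • b j)` satisfies
`∑ z i ^ p ^ ν * h (e i) = h f = 0` (the characteristic of the power series ring is `p`), so `z = 0` by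
`S_Ind`, so `∑_j c' i j • b j = 0` for all `i`, so `c' = 0` and `d = 0`: contradiction. -/
def S_Aux : Prop :=
  ∀ (p : ℕ) [Fact p.Prime] (k B : Type) [Field k] [IsAlgClosed k] [CharP k p] [CommRing B]
    [IsDomain B] [Algebra k B] (S : ℕ → Submodule k B) (g : ℕ) (c : ℤ) (a₀ : ℕ),
    Flt k B S g c a₀ → ∀ M : Set B, (∀ a, S a = Submodule.span k {x | x ∈ M ∧ x ∈ S a}) →
    ∀ h : B →ₐ[k] PowerSeries k, Function.Injective h → ∀ a l μ : ℕ,
    Module.finrank k (S (p ^ μ * a + l)) < Module.finrank k (S a) * Module.finrank k (S l) →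
    ∃ N : ℕ, ∀ ν : ℕ, N ≤ p ^ ν → ∃ f ∈ S (a + l * p ^ ν), f ≠ 0 ∧
      ∀ ρ : B →ₐ[k] k, (∀ x ∈ M, ρ x ^ p ^ (μ + ν) = ρ x) → ρ f = 0

/-- **SteA** (120 lines, uses `S_Zr`, `S_Aux`). Stepanov's bound in the abstract form.

Proof. Let `A = |c| + g`. Choose `μ` with `P = p ^ μ ≥ 4 A / δ` and `P ≥ g a₀ + A + 1`. Let `l` be the
least natural number with `g l + c ≥ (1 + δ / 2) P` (real numbers). `l ≥ a₀` since for `l < a₀`
`g l + c < g a₀ + |c| < P`, and `l ≥ 1` in the same way (`c < P`). So `g (l - 1) + c < (1 + δ / 2) P` and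
`g l ≤ (1 + δ / 2) P + A`. Let `X = g l + c > P` (an integer). Choose `a ≥ a₀` with `g a (X - P) > (1 - c) X`.
Then `finrank (S a) * finrank (S l) - finrank (S (P a + l)) = (g a + c) X - (g (P a + l) + c)
= g a (X - P) + (c - 1) X > 0`. Let `N` be from `S_Aux`, and `n₀ ≥ μ` with `p ^ (n₀ - μ) ≥ N` and
`g a ≤ (δ / 4) p ^ n₀`. For `n ≥ n₀`, `ν = n - μ`, `S_Aux` gives `f` and `S_Zr` gives
`#Z ≤ g (a + l p ^ ν) = g a + g l p ^ n / P ≤ (δ / 4 + 1 + δ / 2 + A / P) p ^ n ≤ (1 + δ) p ^ n`. -/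
def S_SteA : Prop :=
  ∀ (p : ℕ) [Fact p.Prime] (k B : Type) [Field k] [IsAlgClosed k] [CharP k p] [CommRing B]
    [IsDomain B] [Algebra k B] (S : ℕ → Submodule k B) (g : ℕ) (c : ℤ) (a₀ : ℕ),
    Flt k B S g c a₀ → ∀ M : Set B, (∀ a, S a = Submodule.span k {x | x ∈ M ∧ x ∈ S a}) →
    ∀ h : B →ₐ[k] PowerSeries k, Function.Injective h → ∀ δ : ℝ, 0 < δ → ∃ n₀ : ℕ, ∀ n, n₀ ≤ n →
    ∀ Z : Finset (B →ₐ[k] k), (∀ ρ ∈ Z, ∀ x ∈ M, ρ x ^ p ^ n = ρ x) →
      (#Z : ℝ) ≤ (1 + δ) * (p : ℝ) ^ n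

/-- The monomial `t ^ i y ^ j` in `k[t][y] = k[X][Y] / (m)`. -/
noncomputable def mon {k : Type} [Field k] (m : k[X][X]) (i j : ℕ) : AdjoinRoot m :=
  AdjoinRoot.of m (X ^ i) * AdjoinRoot.root m ^ j

/-- The span of the monomials `t ^ i y ^ j` with `i + d j ≤ a`, `j < g`. -/
noncomputable def SS {k : Type} [Field k] (m : k[X][X]) (d : ℕ) (a : ℕ) :
    Submodule k (AdjoinRoot m) :=
  Submodule.span k {x | ∃ i j, i + d * j ≤ a ∧ j < m.natDegree ∧ x = mon m i j}

/-- **CrvA** (120 lines). The monomials `t ^ i y ^ j`, `i + d j ≤ a`, are in `SS m d a`; products.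

Proof. `g = natDegree m`. Strong induction on `j`, the claim for all `i`, `a`. For `j < g` by definition.
Let `j ≥ g`: `m` monic gives `y ^ g = - ∑_{s < g} m_s(t) y ^ s` (`AdjoinRoot.eval₂_root`,
`Polynomial.Monic.as_sum`), so `t ^ i y ^ j = - ∑_{s < g} ∑_{u ≤ d} (coeff u of m_s) t ^ (i + u) y ^ (s + j - g)`
with `(i + u) + d (s + j - g) ≤ i + d + d (j - 1) = i + d j ≤ a` and `s + j - g < j`. Products: products of two
generators are monomials `t ^ i y ^ j` with `i + d j ≤ a + b` (`Submodule.span_induction` twice or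
`Submodule.mul_le`). -/
def S_CrvA : Prop :=
  ∀ (k : Type) [Field k] (m : k[X][X]) (d : ℕ), m.Monic → 1 ≤ m.natDegree →
    (∀ s, (m.coeff s).natDegree ≤ d) →
    (∀ i j a, i + d * j ≤ a → mon m i j ∈ SS m d a) ∧
    ∀ a b x y, x ∈ SS m d a → y ∈ SS m d b → x * y ∈ SS m d (a + b)

/-- **CrvB** (150 lines, uses `S_CrvA`). The filtration of the curve.

Proof. Let `g = natDegree m ≥ 1`, `c = g - d g (g - 1) / 2` (as integer; `g (g - 1)` is even), `a₀ = d g`.
`mono`: clear. `one`: `mon 0 0`. `mul`: `S_CrvA`. `ex`: every element of `AdjoinRoot m` is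
`∑_{j < g} f_j(t) y ^ j` (`AdjoinRoot.powerBasis'` or `AdjoinRoot.mk_surjective` and `S_CrvA`), a
combination of monomials. `fd`: finitely many generators. `dim`: the monomials
`t ^ i y ^ j` (`j < g`) are linearly independent over `k`: `1, y, .., y ^ (g - 1)` is a basis of `AdjoinRoot m`
over `k[X]` (`AdjoinRoot.powerBasis'`), and `X ^ i` are independent over `k`
(`LinearIndependent.smul` or `Basis.smul`); so `finrank (SS m d a)` is the number of the pairs `(i, j)`
with `j < g`, `i + d j ≤ a`, which is `∑_{j < g} (a - d j + 1) = g a + g - d g (g - 1) / 2` for `a ≥ d g`. The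
last claim: `SS` is the span of monomials which are in `SS`. -/
def S_CrvB : Prop :=
  ∀ (k : Type) [Field k] (m : k[X][X]), m.Monic → 1 ≤ m.natDegree →
    ∃ (d : ℕ) (c : ℤ) (a₀ : ℕ), Flt k (AdjoinRoot m) (SS m d) m.natDegree c a₀ ∧
      ∀ a, SS m d a = Submodule.span k {x | x ∈ {x | ∃ i j, x = mon m i j} ∧ x ∈ SS m d a}

/-- **Hns** (150 lines). `k[X][Y] / (m)` is a domain and has an expansion at a good point.

Proof. (1) `m` is irreducible in `k[X][Y]` (`Polynomial.Monic.irreducible_iff_irreducible_map_fraction_map`),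
so prime (`k[X][Y]` is a UFD), so `AdjoinRoot m` is a domain. (2) Separability over `k(X)` gives
`u m + v m' = 1` with `u, v ∈ k(X)[Y]`; clearing denominators (`IsLocalization.integerNormalization` or
by hand) `U m + V m' = C D` with `D ∈ k[X]`, `D ≠ 0`, `U, V ∈ k[X][Y]`. `k` is infinite, let `D(θ) ≠ 0`. Let
`η` be a root of `m_θ = m.map (evalRingHom θ)` (monic of degree at least `1`, `k` algebraically closed); then
`m_θ'(η) ≠ 0` as `V_θ(η) m_θ'(η) = D(θ)`. Let `φ : k[X] →ₐ k⟦X⟧`, `X ↦ C θ + X` (`aeval`): it is injective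
(it is `f ↦ ↑(f.comp (X + C θ))`) and its constant coefficient is the evaluation at `θ`. By Hensel's lemma
in `k⟦X⟧` (`HenselianRing (PowerSeries k) (Ideal.span {PowerSeries.X})` is found by `inferInstance`; see
`HnsEM.hensel_root` in `Lib/MP_7f581e_U/E/HnsE.lean`) there is `s` with `(m.map φ)(s) = 0`. So
`h = AdjoinRoot.lift φ s` is a `k`-algebra homomorphism. Its kernel meets `k[X]` in `0` (`φ` injective),
and `AdjoinRoot m` is integral over `k[X]` (`m` monic) and a domain, so the kernel is `0`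
(`Ideal.eq_bot_of_comap_eq_bot`). -/
def S_Hns : Prop :=
  ∀ (k : Type) [Field k] [IsAlgClosed k] (m : k[X][X]), m.Monic →
    Irreducible (m.map (algebraMap k[X] (RatFunc k))) →
    (m.map (algebraMap k[X] (RatFunc k))).Separable →
    IsDomain (AdjoinRoot m) ∧ ∃ h : AdjoinRoot m →ₐ[k] PowerSeries k, Function.Injective h

/-- **Ste** (80 lines, uses `S_SteA`, `S_CrvB`, `S_Hns`). STEPANOV'S UPPER BOUND for plane curves.

Proof. `natDegree m ≥ 1` as its image is irreducible (degree `0` and monic means `1`). `B = AdjoinRoot m`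
with the filtration of `S_CrvB`, `M` the set of the monomials, `h` from `S_Hns`. For `z ∈ Z` let
`ρ_z = AdjoinRoot.lift (evalRingHom z.1) z.2`, a `k`-algebra homomorphism with `ρ_z (t) = z.1`,
`ρ_z (y) = z.2`; different `z` give different `ρ_z`, and `ρ_z (mon i j) = z.1 ^ i * z.2 ^ j` is fixed by
`x ↦ x ^ p ^ n`. Apply `S_SteA` to the image of `Z`. -/
def S_Ste : Prop :=
  ∀ (p : ℕ) [Fact p.Prime] (k : Type) [Field k] [IsAlgClosed k] [CharP k p] (m : k[X][X]), m.Monic →
    Irreducible (m.map (algebraMap k[X] (RatFunc k))) →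
    (m.map (algebraMap k[X] (RatFunc k))).Separable →
    ∀ δ : ℝ, 0 < δ → ∃ n₀ : ℕ, ∀ n, n₀ ≤ n → ∀ Z : Finset (k × k),
      (∀ z ∈ Z, z.1 ^ p ^ n = z.1 ∧ z.2 ^ p ^ n = z.2 ∧
        (m.map (evalRingHom z.1)).eval z.2 = 0) → (#Z : ℝ) ≤ (1 + δ) * (p : ℝ) ^ n

/-! ### Places of the quadratic closure -/

open Pool.Agent.MP72W Pool.Agent.MP72S.D

/-- The automorphisms which are trivial on the constants. -/
noncomputable def Gb (F : Type) [Field F] : Subgroup (GQ F) where
  carrier := {g | Triv (kF F) (Q := Qf F) g}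
  one_mem' := fun c => one_smul _ _
  mul_mem' := by
    intro a b ha hb c
    rw [mul_smul, hb c, ha c]
  inv_mem' := by
    intro a ha c
    rw [inv_smul_eq_iff, ha c]

/-- The structure map `F[X] → Qf F`. -/
noncomputable def iQ (F : Type) [Field F] : F[X] →+* Qf F :=
  (algebraMap (RatFunc F) (Qf F)).comp (algebraMap F[X] (RatFunc F))

/-- **Rs** (120 lines, uses `S_Lf`, `S_Ln`, `S_Cs`, `S_Fg`, `S_Kk`, `S_Ro`, `S_Pc`, all of block D). Residues of
constants and of `t`, and integrality.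

Proof. (1) `κ ≠ 0`: `nm (e κ) = 1` (constants; `S_Ro` (2) with `c' = 0`), so `0` is an exponent as in the
definition of `nuP`, and the exponent is unique, `nuP κ = 0`; (`κ = 0`: nothing.) (2) `e (κ - κ) = 0` has
norm `0 < 1`, so the set in the definition of `resP` contains `κ`, and it has at most one element by
`S_Ro` (2) (if `c`, `c'` are in it then `nm (e (c - c')) < 1` by the strong triangle inequality, `S_Ln`).
(3) `v X = (1 / 2) ^ n` with `n ≥ 0` by `IsPl` (the multiplicity of `P` in `X`), and `S_Pc` (2). (4) `rtP` is in the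
set by `S_Ro` (1). (5) For `f ≠ 0` in `F[X]` `v f = (1 / 2) ^ mult` with the multiplicity of `P` in `f`, which is
`0` if `natDegree f < natDegree P`; `S_Pc` (2). (6) `u` is a root of a monic polynomial over `F[X]`, whose
coefficients have `nuP ≥ 0` ((5), `nuP 0 = ⊤`); if `nuP u < 0` then `nuP (u ^ d)` is smaller than the `nuP` of the
other terms, a contradiction (`C.Plc` `mul`, `add`). -/
def S_Rs : Prop :=
  ∀ (F : Type) [Field F] [Finite F], (2 : F) ≠ 0 → ∀ A : Pl F → Lcd F, LDok F A →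
    ∀ P : {P : F[X] // P.Monic ∧ Irreducible P},
    (∀ κ : kF F, κ ≠ 0 → nuP (A (some P)) κ = 0) ∧ (∀ κ : kF F, resP (A (some P)) κ = κ) ∧
    0 ≤ nuP (A (some P)) (tQ F) ∧ resP (A (some P)) (tQ F) = rtP A (some P) ∧
    (∀ f : F[X], f ≠ 0 → 0 ≤ nuP (A (some P)) (iQ F f) ∧
      (f.natDegree < P.1.natDegree → nuP (A (some P)) (iQ F f) = 0)) ∧
    ∀ u : Qf F, (iQ F).IsIntegralElem u → 0 ≤ nuP (A (some P)) u

/-- **Nz** (60 lines, uses `S_Rs`, `S_Pc`). Nonzero integral elements are units at almost all places.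

Proof. Let `u` be a root of a monic polynomial `f ∈ F[X][Y]` of minimal degree; its constant coefficient
`a₀` is not `0` (otherwise divide by `Y`; `u ≠ 0`), and `u * w = - iQ a₀` with `w` an integral element (a
polynomial in `u`; or: `w = - iQ a₀ / u` is a polynomial expression in `u` with coefficients in the image of
`F[X]`, so integral). Both have `nuP ≥ 0` by `S_Rs`, and the product has `nuP = 0` if
`natDegree P > natDegree a₀`. So `nuP u = 0` (`C.Plc` from `S_Pc`). -/
def S_Nz : Prop :=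
  ∀ (F : Type) [Field F] [Finite F], (2 : F) ≠ 0 → ∀ A : Pl F → Lcd F, LDok F A →
    ∀ u : Qf F, u ≠ 0 → (iQ F).IsIntegralElem u → ∃ n₀ : ℕ,
    ∀ P : {P : F[X] // P.Monic ∧ Irreducible P}, n₀ ≤ P.1.natDegree → nuP (A (some P)) u = 0

/-- **Prm** (80 lines, uses `S_QG` of block D). A primitive integral element for an open subgroup.

Proof. `Qf F / F(t)` is Galois, `H` is open, so closed, so `H` is the fixing subgroup of its fixed field
`L`, which is finite over `F(t)` (`InfiniteGalois`). `L = F(t)(y₀)` (primitive element theorem, `L / F(t)` is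
separable), `y = d y₀` is integral over `F[t]` for a suitable `d ∈ F[t]`, `d ≠ 0`
(`exists_integral_multiple`), and `F(t)(y) = L`. `σ y = y` iff `σ` fixes `L` iff `σ ∈ H`. -/
def S_Prm : Prop :=
  ∀ (F : Type) [Field F] [Finite F] (H : Subgroup (GQ F)), IsOpen (H : Set (GQ F)) →
    ∃ y : Qf F, (iQ F).IsIntegralElem y ∧ ∀ σ : GQ F, σ y = y ↔ σ ∈ H

/-- **Mip** (120 lines, uses `S_Kk`, `S_QG` of block D). The equation of the curve.

Proof. `k = kF F`. Give `Qf F` the structure of an algebra over `k[X]` by `X ↦ t` (`aeval (tQ F)`); it is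
injective (`S_Kk` (5): `t` is transcendental), so `Qf F` is an algebra over `RatFunc k` (`RatFunc.liftAlgHom` or
`IsFractionRing.lift`), a scalar tower. `y` is integral over `k[X]` (its equation over `F[X]`, mapped by
`F → k`). Let `m = minpoly k[X] y`: monic, and `m.map` is the minimal polynomial of `y` over `RatFunc k`
(`minpoly.isIntegrallyClosed_eq_field_fractions`), so irreducible; it is separable as it divides the
image of the minimal polynomial of `y` over `RatFunc F`, which is separable (`S_QG` (1)). For `σ ∈ Gb`: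
`σ` fixes the constants and `t`, so it fixes the coefficients of `m` in `Qf F`, and `σ y` is a root of `m`. -/
def S_Mip : Prop :=
  ∀ (F : Type) [Field F] [Finite F] (y : Qf F), (iQ F).IsIntegralElem y →
    ∃ m : (kF F)[X][X], m.Monic ∧ Irreducible (m.map (algebraMap (kF F)[X] (RatFunc (kF F)))) ∧
      (m.map (algebraMap (kF F)[X] (RatFunc (kF F)))).Separable ∧
      ∀ σ ∈ Gb F, eval₂ (aeval (tQ F) : (kF F)[X] →ₐ[kF F] Qf F).toRingHom (σ y) m = 0

/-- **Pnt** (150 lines, uses `S_Rs`, `S_Pc`, `S_Ro`, `S_Rq`, `S_Kk`). The points given by a place which splits.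

Proof. Let `q = Nat.card F`, `w = some P`, `n = natDegree P = dgP w.o`, `θ = rtP A w`, `φ = rQ f` at `w`. Let `ψ` be `rQ f`
at infinity (`none`): it acts on the constants by `x ↦ x ^ q` (`S_Rq` (3), `dgP none = 1`); let `σ = ψ⁻¹ ^ j`;
so `(σ κ) ^ q ^ j = κ` for constants `κ`. For `x : Qf F` with `nuP (σ x) ≥ 0` let `ρ x = resP (σ x) ^ q ^ j`. On
these `x` (a subring, as `nuP ∘ σ` is a valuation) `ρ` is a ring homomorphism (`C.Plc` `radd`, `rmul`, `r1`;
`q ^ j` is a power of the characteristic of `k`), `ρ κ = κ` for constants (`S_Rs` (2)), `ρ t = θ ^ q ^ j`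
(`σ t = t`). Elements integral over `F[t]` are in this subring (`σ x` is integral, `S_Rs`). Put
`η τ = ρ (τ y)` for `τ ∈ Gb`. `σ τ y` is fixed by `φ` as `H` is normal: `φ σ τ y = σ τ ((σ τ)⁻¹ φ (σ τ)) y = σ τ y`. So
`resP (σ τ y) ^ q ^ n = resP (φ σ τ y) = resP (σ τ y)` (`rf`). `θ ^ q ^ n = θ`: `θ` is a root of `P`, of degree `n`
(`S_Ro` (1); or `θ = resP t` and `φ t = t`, with `rf`). `m(t, τ y) = 0` gives `m(θ ^ q ^ j, η τ) = 0` by applying
`ρ` (the coefficients of `m(t, ·)` are polynomials in `t` over the constants). If `τ y ≠ τ' y` then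
`σ τ y - σ τ' y` is a difference of two elements of the orbit of `y`; by hypothesis its `nuP` is `0`, so
`resP (σ τ y) ≠ resP (σ τ' y)` (`r0`) and `η τ ≠ η τ'` (`x ↦ x ^ q ^ j` is injective). -/
def S_Pnt : Prop :=
  ∀ (F : Type) [Field F] [Finite F], (2 : F) ≠ 0 → ∀ A : Pl F → Lcd F, LDok F A →
    ∀ (H : Subgroup (GQ F)) (y : Qf F) (m : (kF F)[X][X]), H.Normal → (iQ F).IsIntegralElem y →
    (∀ σ : GQ F, σ y = y ↔ σ ∈ H) →
    (∀ σ ∈ Gb F, eval₂ (aeval (tQ F) : (kF F)[X] →ₐ[kF F] Qf F).toRingHom (σ y) m = 0) →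
    ∀ P : {P : F[X] // P.Monic ∧ Irreducible P}, (A (some P)).rQ (A (some P)).f ∈ H →
    (∀ σ τ : GQ F, σ y ≠ τ y → nuP (A (some P)) (σ y - τ y) = 0) → ∀ j : ℕ,
    ∃ η : GQ F → kF F, (∀ τ ∈ Gb F, ∀ τ' ∈ Gb F, η τ = η τ' → τ y = τ' y) ∧
      (rtP A (some P) ^ Nat.card F ^ j) ^ Nat.card F ^ P.1.natDegree =
        rtP A (some P) ^ Nat.card F ^ j ∧
      ∀ τ ∈ Gb F, η τ ^ Nat.card F ^ P.1.natDegree = η τ ∧
        (m.map (evalRingHom (rtP A (some P) ^ Nat.card F ^ j))).eval (η τ) = 0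

/-- The places of degree `n`. -/
def Irs (F : Type) [Field F] (n : ℕ) : Set (Pl F) := {w | ∃ P, w = some P ∧ P.1.natDegree = n}

/-- **Irc** (120 lines, uses `S_Kk`, `S_Ro` of block D). The number of the places of degree `n`.

Proof. `k = kF F` is algebraically closed of characteristic `p`, so `{x : k | x ^ q ^ n = x}` has `q ^ n`
elements for `n ≥ 1`. By `S_Ro` (3) every `x : k` is `θ_w ^ q ^ i` for exactly one pair `(w, i)`,
`w = some P`, `i < deg P`, where `θ_w ^ q ^ (deg P) = θ_w` (`θ_w` is a root of `P`: `F(θ_w)` has `q ^ (deg P)`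
elements). If `x ^ q ^ n = x` then `θ_w ^ q ^ n = θ_w` (the Frobenius map is injective), so with
`r = n % deg P` `θ_w ^ q ^ r = θ_w`, `r < deg P`, and `r = 0` by the uniqueness. So `deg P ∣ n`. Conversely
the `n` elements `θ_w ^ q ^ i` for `deg P = n` satisfy `x ^ q ^ n = x`. So `n #(Irs n)` is `q ^ n` minus the
number of the `x` which belong to a `w` with `deg P ∣ n`, `deg P < n`, so `deg P = d ≤ n / 2` and
`x ^ q ^ d = x`; they are at most `∑_{d ≤ n / 2} q ^ d ≤ q ^ (n / 2 + 1)`, which is at most `q ^ n / 4` for large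
`n`. `Irs n` is finite (finitely many polynomials of degree `n`). -/
def S_Irc : Prop :=
  ∀ (F : Type) [Field F] [Finite F] (A : Pl F → Lcd F), LDok F A → (∀ n, (Irs F n).Finite) ∧
    ∃ n₀ : ℕ, ∀ n, n₀ ≤ n → 3 * (Nat.card F : ℝ) ^ n ≤ 4 * (n * ((Irs F n).ncard : ℝ))

/-- **Spl** (150 lines, uses `S_Ste`, `S_Prm`, `S_Mip`, `S_Nz`, `S_Pnt`, `S_Irc`; and `S_Kk`, `S_Ro` of block D). FEW PLACES
SPLIT COMPLETELY.

Proof. `q = Nat.card F = p ^ r`, `k = kF F` (algebraically closed, characteristic `p`). Let `y` be from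
`S_Prm`, `m` from `S_Mip`. The orbit `GQ F • y` is finite (`H` has finite index: `GQ F` is compact), so by
`S_Nz` for the finitely many nonzero differences of its elements (integral: `σ y` is integral) there is
`n₁` such that for `natDegree P ≥ n₁` the last hypothesis of `S_Pnt` holds. Let `n ≥ n₁`, `n ≥ 1`,
`C = {P | deg P = n, φ_P ∈ H}`, `R = {τ y | τ ∈ Gb}`, which has `g = H.relIndex Gb` elements (orbit of `Gb`, the
stabilizer is `H ∩ Gb`). For `P ∈ C`, `j < n`, `z = τ y ∈ R` (choose `τ` for every `z`) we get the point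
`(θ_P ^ q ^ j, η_{P,j} τ)`; these points are different for different `(P, j, z)` (`(P, j)` is determined by
`θ_P ^ q ^ j` by `S_Ro` (3), `z` by `S_Pnt`). So by `S_Ste` for `δ = 1 / 2` and the exponent `r n`:
`#C n g ≤ (3 / 2) q ^ n` for large `n`, and by `S_Irc` `q ^ n ≤ (4 / 3) n #(Irs n)`. So `#C g ≤ 2 #(Irs n)`. -/
def S_Spl : Prop :=
  ∀ (F : Type) [Field F] [Finite F], (2 : F) ≠ 0 → ∀ A : Pl F → Lcd F, LDok F A →
    ∀ H : Subgroup (GQ F), H.Normal → IsOpen (H : Set (GQ F)) → ∃ n₀ : ℕ, ∀ n, n₀ ≤ n →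
      {w ∈ Irs F n | (A w).rQ (A w).f ∈ H}.ncard * H.relIndex (Gb F) ≤ 2 * (Irs F n).ncard

end Pool.Agent.MP72S.SF
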